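import Pool.Agent.Lib.MP_3e612f_nt.PS.SubD
import Pool.Agent.Lib.MP_3e612f_nt.Cov

/-! The universal subshift has zero topological entropy (blueprint, section Sub). -/

set_option autoImplicit false

namespace Pool.Agent.Lib.MP_3e612f_nt.PS

open Finset
open Pool.Agent.Lib.MP_3e612f_nt.PB

theorem SubD2_iterate {G : Type} (x : ℕ → G) (j : ℕ) :
    (fun (x : ℕ → G) i => x (i + 1))^[j] x = fun i => x (i + j) := by
  induction j generalizing x with
  | zero => rfl
  | succ j ih =>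
    rw [Function.iterate_succ_apply, ih]
    funext i
    show x (i + j + 1) = x (i + (j + 1))
    rw [Nat.add_assoc]

theorem SubD2_growth {C δ : ℝ} (hC : 0 ≤ C) (hδ : 0 < δ) (m : ℕ) :
    ∃ k : ℕ, m + 1 ≤ 2 ^ k ∧ ((k : ℝ) + 1) * C ≤ δ * ((2 ^ k - m : ℕ) : ℝ) := by
  have h1 := tendsto_pow_const_div_const_pow_of_one_lt 1 (one_lt_two : (1 : ℝ) < 2)
  have hD : (0 : ℝ) < δ / (2 * C + δ * m + 1) := by positivity
  have h2 := (h1.eventually_lt_const hD).and (Filter.eventually_ge_atTop (m + 1))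
  obtain ⟨k, hk1, hk2⟩ := h2.exists
  have h3 : m + 1 ≤ 2 ^ k := hk2.trans (Nat.lt_two_pow_self).le
  refine ⟨k, h3, ?_⟩
  rw [Nat.cast_sub (by omega)]
  push_cast
  rw [pow_one, div_lt_div_iff₀ (by positivity) (by positivity)] at hk1
  have hk3 : (1 : ℝ) ≤ k := by exact_mod_cast (by omega : 1 ≤ k)
  have h4 : (0 : ℝ) ≤ (k - 1) * C := mul_nonneg (by linarith) hC
  have h5 : (0 : ℝ) ≤ (k - 1) * (δ * m) := mul_nonneg (by linarith) (by positivity)
  nlinarith

theorem SubD2_unif {G : Type} [UniformSpace G] [DiscreteUniformity G]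
    {U : Set ((ℕ → G) × (ℕ → G))} (hU : U ∈ uniformity (ℕ → G)) :
    ∃ m : ℕ, ∀ x y : ℕ → G, (∀ i < m, x i = y i) → (x, y) ∈ U := by
  rw [Pi.uniformity, Filter.mem_iInf'] at hU
  obtain ⟨I, hI, V, hV, -, hUV, -⟩ := hU
  obtain ⟨m, hm⟩ := hI.bddAbove
  refine ⟨m + 1, fun x y hxy => ?_⟩
  rw [hUV]
  refine Set.mem_iInter₂.2 fun i hi => ?_
  obtain ⟨W, hW, hWV⟩ := hV i
  apply hWV
  show (x i, y i) ∈ W
  rw [hxy i (Nat.lt_succ_of_le (hm hi))]
  exact refl_mem_uniformity hW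

theorem UX_entropy (G : Type) [Group G] [Finite G] [UniformSpace G] [DiscreteUniformity G]
    (B : ℕ) (hB : 2 ≤ B) :
    Dynamics.coverEntropy (fun (x : ℕ → G) i => x (i + 1)) (UX G B) = 0 := by
  apply le_antisymm
  · have hmaps : Set.MapsTo (fun (x : ℕ → G) i => x (i + 1)) (UX G B) (UX G B) :=
      fun x hx => UX_shift hx 1
    have : Filter.IsCountablyGenerated (uniformity G) := by
      rw [DiscreteUniformity.eq_principal_setRelId]
      infer_instance
    letI : PseudoMetricSpace (ℕ → G) := UniformSpace.pseudoMetricSpace (ℕ → G)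
    refine coverEntropy_le_zero hmaps ?_
    intro ε hε δ hδ
    obtain ⟨m, hm⟩ := SubD2_unif (G := G) (U := {p | dist p.1 p.2 < ε}) (Metric.dist_mem_uniformity hε)
    obtain ⟨A, hA, hw⟩ := UX_words G B hB
    obtain ⟨k, hk1, hk2⟩ := SubD2_growth (C := Real.log A) (Real.log_nonneg (by exact_mod_cast hA))
      hδ m
    obtain ⟨c, hc⟩ := hw k
    refine ⟨2 ^ k - m, by omega, A ^ (k + 1), ?_, c, ?_⟩
    · push_cast
      rw [Real.log_pow]
      push_cast
      exact hk2
    · intro x hx y hy hxy j hj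
      apply hm
      intro i hi
      rw [SubD2_iterate, SubD2_iterate]
      exact hc x hx y hy hxy (i + j) (by omega)
  · exact Dynamics.coverEntropy_nonneg _ ⟨_, UX_nonempty hB⟩

end Pool.Agent.Lib.MP_3e612f_nt.PS
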