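import Pool.Agent.Lib.MP_3e612f_nt.PS.SubDefs
import Pool.Agent.Lib.MP_3e612f_nt.PB.Dig

/-! The universal subshift is closed and invariant (blueprint, section Sub). -/

set_option autoImplicit false

namespace Pool.Agent.Lib.MP_3e612f_nt.PS

open Finset
open Pool.Agent.Lib.MP_3e612f_nt.PB

variable {G : Type} [Group G]

theorem UX_nonempty {B : ℕ} (hB : 2 ≤ B) : (fun _ => (1 : G)) ∈ UX G B := by
  intro l
  refine ⟨fun _ => 2, fun _ _ => 1, 0, 0, fun _ => ⟨le_rfl, hB⟩, fun i _ => ?_⟩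
  rfl

theorem UX_shift {B : ℕ} {x : ℕ → G} (hx : x ∈ UX G B) (n : ℕ) :
    (fun i => x (i + n)) ∈ UX G B := by
  intro l
  obtain ⟨q, g, L, s, hq, h⟩ := hx (l + n)
  refine ⟨q, g, L, n + s, hq, fun i hi => ?_⟩
  have h1 := h (i + n) (by omega)
  show x (i + n) = hw q g 0 L (i + (n + s))
  rw [h1, Nat.add_assoc]

theorem SubC_open_cyl [TopologicalSpace G] [DiscreteTopology G] (x : ℕ → G) (m : ℕ) :
    IsOpen {y : ℕ → G | ∀ i < m, y i = x i} := by
  have h : {y : ℕ → G | ∀ i < m, y i = x i} = PiNat.cylinder (E := fun _ => G) x m := by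
    ext y
    simp [PiNat.cylinder]
  rw [h]
  exact PiNat.isOpen_cylinder _ x m

theorem UX_closed [TopologicalSpace G] [DiscreteTopology G] (B : ℕ) : IsClosed (UX G B) := by
  rw [← isOpen_compl_iff, isOpen_iff_forall_mem_open]
  intro x hx
  have h1 : ∃ l : ℕ, ¬ ∃ (q : ℕ → ℕ) (g : ℕ → ℕ → G) (L s : ℕ), (∀ j, 2 ≤ q j ∧ q j ≤ B) ∧
      ∀ i < l, x i = hw q g 0 L (i + s) := by
    by_contra h
    push Not at h
    exact hx (fun l => h l)
  obtain ⟨l, hl⟩ := h1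
  refine ⟨{y : ℕ → G | ∀ i < l, y i = x i}, ?_, SubC_open_cyl x l, fun i _ => rfl⟩
  intro y hy hyU
  apply hl
  obtain ⟨q, g, L, s, hq, h⟩ := hyU l
  exact ⟨q, g, L, s, hq, fun i hi => (hy i hi).symm.trans (h i hi)⟩

theorem SubC_local [TopologicalSpace G] [DiscreteTopology G] {X : Set (ℕ → G)}
    {f : (ℕ → G) → ℂ} (hf : ContinuousOn f X) {ε : ℝ} (hε : 0 < ε) (x : ℕ → G) (hx : x ∈ X) :
    ∃ m : ℕ, ∀ y ∈ X, (∀ i < m, y i = x i) → ‖f y - f x‖ < ε := by
  have h1 : f ⁻¹' (Metric.ball (f x) ε) ∈ nhdsWithin x X :=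
    (hf x hx).preimage_mem_nhdsWithin (Metric.ball_mem_nhds _ hε)
  rw [mem_nhdsWithin] at h1
  obtain ⟨u, hu, hxu, hsub⟩ := h1
  have h2 := (PiNat.isTopologicalBasis_cylinders (fun _ : ℕ => G)).exists_subset_of_mem_open
    hxu hu
  obtain ⟨v, ⟨z, m, rfl⟩, hxv, hvu⟩ := h2
  refine ⟨m, fun y hy hyx => ?_⟩
  have h3 : y ∈ PiNat.cylinder (E := fun _ => G) z m := by
    intro i hi
    rw [hyx i hi]
    exact hxv i hi
  have h4 : y ∈ f ⁻¹' (Metric.ball (f x) ε) := hsub ⟨hvu h3, hy⟩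
  have h5 : dist (f y) (f x) < ε := h4
  rwa [dist_eq_norm] at h5

theorem SubC_compact [Finite G] [TopologicalSpace G] [DiscreteTopology G] {X : Set (ℕ → G)}
    (hX : IsClosed X) : IsCompact X := by
  haveI : CompactSpace G := Finite.compactSpace
  exact hX.isCompact

/-- continuous functions on a closed set of sequences almost depend on finitely many coordinates -/
theorem unif_coord [Finite G] [TopologicalSpace G] [DiscreteTopology G] {X : Set (ℕ → G)}
    (hX : IsClosed X) {f : (ℕ → G) → ℂ} (hf : ContinuousOn f X) {ε : ℝ} (hε : 0 < ε) :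
    ∃ m : ℕ, ∀ x ∈ X, ∀ y ∈ X, (∀ i < m, x i = y i) → ‖f x - f y‖ ≤ ε := by
  classical
  have hloc := SubC_local hf (half_pos hε)
  choose! m hm using hloc
  obtain ⟨t, htX, ht⟩ := (SubC_compact hX).elim_nhds_subcover
    (fun x => {y : ℕ → G | ∀ i < m x, y i = x i})
    (fun x _ => (SubC_open_cyl x (m x)).mem_nhds (fun i _ => rfl))
  refine ⟨t.sup m, fun x hx y hy hxy => ?_⟩
  have h1 := ht hx
  rw [Set.mem_iUnion₂] at h1
  obtain ⟨z, hz, hxz⟩ := h1
  have hzX := htX z hz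
  have hmz : m z ≤ t.sup m := Finset.le_sup hz
  have h2 := hm z hzX x hx hxz
  have h3 := hm z hzX y hy (fun i hi => by rw [← hxy i (lt_of_lt_of_le hi hmz)]; exact hxz i hi)
  have h4 : f x - f y = (f x - f z) - (f y - f z) := by ring
  rw [h4]
  have h5 := norm_sub_le (f x - f z) (f y - f z)
  linarith

theorem bdd_on [Finite G] [TopologicalSpace G] [DiscreteTopology G] {X : Set (ℕ → G)}
    (hX : IsClosed X) {f : (ℕ → G) → ℂ} (hf : ContinuousOn f X) :
    ∃ C : ℝ, 0 < C ∧ ∀ x ∈ X, ‖f x‖ ≤ C := by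
  obtain ⟨C, hC⟩ := (SubC_compact hX).exists_bound_of_continuousOn hf
  exact ⟨max C 1, lt_of_lt_of_le one_pos (le_max_right _ _),
    fun x hx => (hC x hx).trans (le_max_left _ _)⟩

end Pool.Agent.Lib.MP_3e612f_nt.PS
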