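import Pool.Agent.Lib.MP_3e612f_nt.PB.Dig

/-! Recording digits; sliding blocks (blueprint, section Sub). -/

set_option autoImplicit false

namespace Pool.Agent.Lib.MP_3e612f_nt.PS

open Finset
open Pool.Agent.Lib.MP_3e612f_nt.PB

theorem SubA_succ {H : Type} [Group H] (q : ℕ → ℕ) (h : ℕ → ℕ → H) (j n x : ℕ) :
    hw q h j (n + 1) x = h j (x % q j) * hw q h (j + 1) n (x / q j) := rfl

theorem SubA_map {H M : Type} [Group H] [Group M] (φ : H →* M) (q : ℕ → ℕ) (h : ℕ → ℕ → H)
    (j n x : ℕ) : φ (hw q h j n x) = hw q (fun a d => φ (h a d)) j n x := by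
  induction n generalizing j x with
  | zero => exact map_one φ
  | succ n ih => rw [SubA_succ, SubA_succ, map_mul, ih]

theorem SubA_congr {H : Type} [Group H] (q : ℕ → ℕ) (h h' : ℕ → ℕ → H) (j n x : ℕ)
    (e : ∀ a, j ≤ a → a < j + n → ∀ d, h a d = h' a d) : hw q h j n x = hw q h' j n x := by
  induction n generalizing j x with
  | zero => rfl
  | succ n ih =>
    rw [SubA_succ, SubA_succ, e j le_rfl (by omega),
      ih (j + 1) _ fun a h1 h2 d => e a (by omega) (by omega) d]

theorem SubA_one {H : Type} [Group H] (q : ℕ → ℕ) (h : ℕ → ℕ → H) (j n x : ℕ)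
    (e : ∀ a, j ≤ a → a < j + n → ∀ d, h a d = 1) : hw q h j n x = 1 := by
  induction n generalizing j x with
  | zero => rfl
  | succ n ih =>
    rw [SubA_succ, e j le_rfl (by omega),
      ih (j + 1) _ fun a h1 h2 d => e a (by omega) (by omega) d, one_mul]

/-- isolating one position -/
theorem SubA_single {H : Type} [Group H] (q : ℕ → ℕ) (h : ℕ → ℕ → H) (i L x : ℕ) (hi : i < L)
    (e : ∀ a, a ≠ i → ∀ d, h a d = 1) : hw q h 0 L x = h i (x / Qr q 0 i % q i) := by
  obtain ⟨r, rfl⟩ : ∃ r, L = i + (1 + r) := ⟨L - i - 1, by omega⟩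
  rw [hw_add, hw_add, hw_one_len, SubA_one q h 0 i x fun a _ h2 d => e a (by omega) d,
    SubA_one q h (0 + i + 1) r _ fun a h1 _ d => e a (by omega) d, one_mul, mul_one, Nat.zero_add]

theorem SubA_digits (q : ℕ → ℕ) (x y : ℕ) (k : ℕ)
    (h : ∀ i, i < k → x / Qr q 0 i % q i = y / Qr q 0 i % q i) :
    x % Qr q 0 k = y % Qr q 0 k := by
  induction k with
  | zero => rw [Qr_zero, Nat.mod_one, Nat.mod_one]
  | succ k ih =>
    rw [Qr_succ, Nat.zero_add, Nat.mod_mul, Nat.mod_mul, ih fun i hi => h i (by omega),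
      h k (by omega)]

theorem SubA_shift {Q x i : ℕ} (h : x % Q + i < Q) :
    (x + i) % Q = x % Q + i ∧ (x + i) / Q = x / Q := by
  have h1 : x + i = (x % Q + i) + Q * (x / Q) := by
    have := Nat.mod_add_div x Q
    omega
  have hQ : 0 < Q := by omega
  constructor
  · conv_lhs => rw [h1]
    rw [Nat.add_mul_mod_self_left, Nat.mod_eq_of_lt h]
  · conv_lhs => rw [h1]
    rw [Nat.add_mul_div_left _ _ hQ, Nat.div_eq_of_lt h, Nat.zero_add]

/-- a program with values in a larger group which also records the first `k` digits -/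
theorem record {G : Type} [Group G] (B : ℕ) (k : ℕ) {q : ℕ → ℕ} (hq : Rad B q)
    (g : ℕ → ℕ → G) (L : ℕ) :
    ∃ (g' : ℕ → ℕ → G × (Fin k → Multiplicative (ZMod B))) (L' : ℕ),
      ∀ x y : ℕ, hw q g' 0 L' x = hw q g' 0 L' y →
        x % Qr q 0 k = y % Qr q 0 k ∧
        ∀ i, x % Qr q 0 k + i < Qr q 0 k → hw q g 0 L (x + i) = hw q g 0 L (y + i) := by
  classical
  refine ⟨fun a d => (if k ≤ a then g a d else 1,
    fun i => if a = i.1 then Multiplicative.ofAdd ((d : ℕ) : ZMod B) else 1), max k L, ?_⟩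
  intro x y hxy
  have hdig : ∀ i, i < k → x / Qr q 0 i % q i = y / Qr q 0 i % q i := by
    intro i hi
    have h1 := congrArg (((Pi.evalMonoidHom (fun _ : Fin k => Multiplicative (ZMod B)) ⟨i, hi⟩).comp
      (MonoidHom.snd G (Fin k → Multiplicative (ZMod B))))) hxy
    rw [SubA_map, SubA_map, SubA_single q _ i (max k L) x (by omega),
      SubA_single q _ i (max k L) y (by omega)] at h1
    · have h2 : (((x / Qr q 0 i % q i : ℕ)) : ZMod B) = ((y / Qr q 0 i % q i : ℕ) : ZMod B) := by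
        simpa using h1
      have hqi := hq i
      have hx : x / Qr q 0 i % q i < q i := Nat.mod_lt _ (by omega)
      have hy : y / Qr q 0 i % q i < q i := Nat.mod_lt _ (by omega)
      rw [ZMod.natCast_eq_natCast_iff'] at h2
      rwa [Nat.mod_eq_of_lt (lt_of_lt_of_le hx hqi.2), Nat.mod_eq_of_lt (lt_of_lt_of_le hy hqi.2)] at h2
    · intro a ha d
      simp [ha]
    · intro a ha d
      simp [ha]
  have hmod := SubA_digits q x y k hdig
  refine ⟨hmod, fun i hi => ?_⟩
  obtain ⟨hx1, hx2⟩ := SubA_shift hi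
  obtain ⟨hy1, hy2⟩ := SubA_shift (Q := Qr q 0 k) (x := y) (i := i) (by omega)
  have hfirst : ∀ l, l ≤ k → hw q g 0 l (x + i) = hw q g 0 l (y + i) := by
    intro l hl
    have hd : Qr q 0 l ∣ Qr q 0 k := by
      obtain ⟨e, rfl⟩ := Nat.exists_eq_add_of_le hl
      rw [Qr_add]
      exact Dvd.intro _ rfl
    rw [← hw_mod hq 0 l (x + i), ← hw_mod hq 0 l (y + i), ← Nat.mod_mod_of_dvd (x + i) hd,
      ← Nat.mod_mod_of_dvd (y + i) hd, hx1, hy1, hmod]
  rcases le_total L k with hL | hL
  · exact hfirst L hL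
  · obtain ⟨e, rfl⟩ := Nat.exists_eq_add_of_le hL
    rw [hw_add, hw_add q g 0 k e (y + i), hfirst k le_rfl, hx2, hy2]
    congr 1
    have h1 := congrArg (MonoidHom.fst G (Fin k → Multiplicative (ZMod B))) hxy
    rw [SubA_map, SubA_map, max_eq_right hL, hw_add, hw_add,
      SubA_one q _ 0 k x (fun a _ h2 d => by
        have : ¬ k ≤ a := by omega
        simp [this]),
      SubA_one q _ 0 k y (fun a _ h2 d => by
        have : ¬ k ≤ a := by omega
        simp [this]), one_mul, one_mul] at h1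
    rw [SubA_congr q g _ (0 + k) e (x / Qr q 0 k) (fun a h1 _ d => ?_), h1]
    · refine (SubA_congr q g _ (0 + k) e (y / Qr q 0 k) (fun a h1 _ d => ?_)).symm
      have : k ≤ a := by omega
      simp [this]
    · have : k ≤ a := by omega
      simp [this]

/-- few numbers `n` have `n + s` close to the end of a block of length `Q` -/
theorem few_bad {Q : ℕ} (hQ : 1 ≤ Q) (m s N : ℕ) :
    (((Icc 1 N).filter fun n => ¬ ((n + s) % Q + m ≤ Q)).card : ℝ) ≤
      m * ((N : ℝ) / Q + 2) := by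
  classical
  have hcard : ((Icc 1 N).filter fun n => ¬ ((n + s) % Q + m ≤ Q)).card ≤
      ((range ((N + s) / Q - s / Q + 1)) ×ˢ (range m)).card := by
    refine Finset.card_le_card_of_injOn (fun n => ((n + s) / Q - s / Q, Q - 1 - (n + s) % Q)) ?_ ?_
    · intro n hn
      have hn' := Finset.mem_filter.1 hn
      have h1 := (Finset.mem_Icc.1 hn'.1).2
      have h2 := hn'.2
      have h3 : (n + s) / Q ≤ (N + s) / Q := Nat.div_le_div_right (by omega)
      refine Finset.mem_product.2 ⟨Finset.mem_range.2 ?_, Finset.mem_range.2 ?_⟩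
      · show (n + s) / Q - s / Q < _
        omega
      · show Q - 1 - (n + s) % Q < m
        have : (n + s) % Q < Q := Nat.mod_lt _ (by omega)
        omega
    · intro n _ n' _ h
      have h1 : (n + s) / Q - s / Q = (n' + s) / Q - s / Q := congrArg Prod.fst h
      have h2 : Q - 1 - (n + s) % Q = Q - 1 - (n' + s) % Q := congrArg Prod.snd h
      have h3 : s / Q ≤ (n + s) / Q := Nat.div_le_div_right (by omega)
      have h4 : s / Q ≤ (n' + s) / Q := Nat.div_le_div_right (by omega)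
      have h5 : (n + s) % Q < Q := Nat.mod_lt _ (by omega)
      have h6 : (n' + s) % Q < Q := Nat.mod_lt _ (by omega)
      have h7 : (n + s) / Q = (n' + s) / Q := by omega
      have h8 : (n + s) % Q = (n' + s) % Q := by omega
      have h9 := Nat.div_add_mod (n + s) Q
      have h10 := Nat.div_add_mod (n' + s) Q
      rw [h7, h8] at h9
      omega
  rw [Finset.card_product, Finset.card_range, Finset.card_range] at hcard
  have hQr : (0 : ℝ) < Q := by exact_mod_cast hQ
  have hle : s / Q ≤ (N + s) / Q := Nat.div_le_div_right (by omega)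
  have h1 : (((N + s) / Q - s / Q + 1 : ℕ) : ℝ) ≤ (N : ℝ) / Q + 2 := by
    push_cast [Nat.cast_sub hle]
    have h2 : (((N + s) / Q : ℕ) : ℝ) ≤ ((N + s : ℕ) : ℝ) / Q := Nat.cast_div_le
    have h3 : (s : ℝ) / Q ≤ ((s / Q : ℕ) : ℝ) + 1 := by
      rw [div_le_iff₀ hQr]
      have h4 := Nat.lt_div_mul_add (a := s) (b := Q) (by omega)
      have h5 : (s : ℝ) < ((s / Q * Q + Q : ℕ) : ℝ) := by exact_mod_cast h4
      push_cast at h5
      nlinarith
    push_cast at h2
    have h6 : ((N : ℝ) + s) / Q = (N : ℝ) / Q + (s : ℝ) / Q := add_div _ _ _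
    linarith
  calc (((Icc 1 N).filter fun n => ¬ ((n + s) % Q + m ≤ Q)).card : ℝ)
      ≤ (((((N + s) / Q - s / Q + 1) * m : ℕ)) : ℝ) := by exact_mod_cast hcard
    _ = (((N + s) / Q - s / Q + 1 : ℕ) : ℝ) * m := by push_cast; ring
    _ ≤ ((N : ℝ) / Q + 2) * m := mul_le_mul_of_nonneg_right h1 (Nat.cast_nonneg _)
    _ = m * ((N : ℝ) / Q + 2) := mul_comm _ _

end Pool.Agent.Lib.MP_3e612f_nt.PS
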