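import Pool.Agent.Lib.MP_3e612f_nt.PS.LocI
import Pool.Agent.Lib.MP_3e612f_nt.PB.Lin

/-! The algebra: a group which contains transported local groups and transitions contains
`1 × Nlin` (blueprint, section Chain). -/

set_option autoImplicit false

namespace Pool.Agent.Lib.MP_3e612f_nt.PS

open Finset
open Pool.Agent.Lib.MP_3e612f_nt.PB

variable {G : Type} [Group G] [Fintype G] {q : ℕ → ℕ} {g : ℕ → ℕ → G} {B : ℕ} {p r k : ℕ}

/-- the elements `y` with `(x, y) ∈ H` for some `x` -/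
private def Chain_P {G : Type} [Group G] (H : Subgroup (G × G)) (y : G) : Prop :=
  ∃ x, (x, y) ∈ H

private theorem Chain_mul {G : Type} [Group G] {H : Subgroup (G × G)} {x y : G}
    (hx : Chain_P H x) (hy : Chain_P H y) : Chain_P H (x * y) := by
  obtain ⟨a, ha⟩ := hx
  obtain ⟨b, hb⟩ := hy
  exact ⟨a * b, H.mul_mem ha hb⟩

private theorem Chain_inv {G : Type} [Group G] {H : Subgroup (G × G)} {x : G}
    (hx : Chain_P H x) : Chain_P H x⁻¹ := by
  obtain ⟨a, ha⟩ := hx
  exact ⟨a⁻¹, H.inv_mem ha⟩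

private theorem Chain_one {G : Type} [Group G] (H : Subgroup (G × G)) : Chain_P H (1 : G) :=
  ⟨1, H.one_mem⟩

private theorem Chain_snd {G : Type} [Group G] {H : Subgroup (G × G)} {z : G × G} (h : z ∈ H) :
    Chain_P H z.2 := ⟨z.1, h⟩

/-- undo a conjugation by an element of `P` -/
private theorem Chain_unconj {G : Type} [Group G] {H : Subgroup (G × G)} {b x : G}
    (hb : Chain_P H b) (hx : Chain_P H (b * x * b⁻¹)) : Chain_P H x := by
  have h := Chain_mul (Chain_mul (Chain_inv hb) hx) hb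
  have e : b⁻¹ * (b * x * b⁻¹) * b = x := by group
  rwa [e] at h

private theorem Chain_unconj1 {G : Type} [Group G] {H : Subgroup (G × G)} {b y : G}
    (hb : Chain_P H b) (hx : ((1 : G), b * y * b⁻¹) ∈ H) : ((1 : G), y) ∈ H := by
  obtain ⟨x, hx'⟩ := hb
  have h := H.mul_mem (H.mul_mem (H.inv_mem hx') hx) hx'
  have e : (x, b)⁻¹ * ((1 : G), b * y * b⁻¹) * (x, b) = ((1 : G), y) := by
    apply Prod.ext
    · show x⁻¹ * 1 * x = 1
      group
    · show b⁻¹ * (b * y * b⁻¹) * b = y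
      group
  rwa [e] at h

private theorem Chain_conj1 {G : Type} [Group G] {H : Subgroup (G × G)} {b y : G}
    (hb : Chain_P H b) (hx : ((1 : G), y) ∈ H) : ((1 : G), b * y * b⁻¹) ∈ H := by
  obtain ⟨x, hx'⟩ := hb
  have h := H.mul_mem (H.mul_mem hx' hx) (H.inv_mem hx')
  have e : (x, b) * ((1 : G), y) * (x, b)⁻¹ = ((1 : G), b * y * b⁻¹) := by
    apply Prod.ext
    · show x * 1 * x⁻¹ = 1
      group
    · rfl
  rwa [e] at h

theorem chain (hq : Rad B q) (hg : Neu g) (hp : 2 ≤ p) (hpr : p + 2 ≤ r) (hr : r.Prime)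
    (hrq : ∀ j, ¬ r ∣ q j) (hk : p * r < 2 ^ k) (hG : Fintype.card G < r)
    (H : Subgroup (G × G)) (a : ℕ → G × G) (cl : ℕ → ℕ × ℕ) {i s t : ℕ} (his : i + k ≤ s)
    (h0 : (a i).2 = 1)
    (h1 : ∀ l, i ≤ l → l < t → ∀ x ∈ Loc q g p r l (3 * k + 1) (cl l), a l * x * (a l)⁻¹ ∈ H)
    (h2 : ∀ l, i ≤ l → l + 1 < t → ∃ (w₁ w₂ : G × G) (x₁ x₂ : ℕ), x₁ < Qr q l (k + 1) ∧
      x₂ < Qr q (l + 1) k ∧ w₁.2 = hw q g l (k + 1) x₁ ∧ w₂.2 = hw q g (l + 1) k x₂ ∧
      a l * w₁ * (a (l + 1) * w₂)⁻¹ ∈ H)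
    {y : G} (hy : y ∈ Nlin q g s t) : ((1 : G), y) ∈ H := by
  -- the two facts from `loc_all`
  have hA : ∀ l, i ≤ l → l < t → ∀ x, x < Qr q l (k + 1) →
      Chain_P H ((a l).2 * hw q g l (k + 1) x * ((a l).2)⁻¹) := by
    intro l hl hlt x hx
    obtain ⟨y', hy'⟩ := (loc_all hq hg hp hpr hr hrq hk hG l (cl l)).1 x hx
    exact Chain_snd (h1 l hl hlt _ hy')
  have hB : ∀ l, i ≤ l → l < t → ∀ y ∈ Yj q g (l + k),
      ((1 : G), (a l).2 * y * ((a l).2)⁻¹) ∈ H := by
    intro l hl hlt y' hy'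
    have h3 := h1 l hl hlt _ ((loc_all hq hg hp hpr hr hrq hk hG l (cl l)).2 y' hy')
    have e : a l * ((1 : G), y') * (a l)⁻¹ = ((1 : G), (a l).2 * y' * ((a l).2)⁻¹) := by
      apply Prod.ext
      · show (a l).1 * 1 * ((a l).1)⁻¹ = 1
        group
      · rfl
    rwa [e] at h3
  -- the transports lie in `P`
  have hb : ∀ m, i + m < t → Chain_P H (a (i + m)).2 := by
    intro m
    induction m with
    | zero =>
      intro _
      rw [Nat.add_zero, h0]
      exact Chain_one H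
    | succ m ih =>
      intro hm
      have hPl := ih (by omega)
      obtain ⟨w₁, w₂, x₁, x₂, hx₁, hx₂, hw1, hw2, hmem⟩ := h2 (i + m) (by omega) (by omega)
      have e0 : i + (m + 1) = i + m + 1 := by omega
      rw [e0]
      have f1 : Chain_P H (hw q g (i + m) (k + 1) x₁) :=
        Chain_unconj hPl (hA (i + m) (by omega) (by omega) x₁ hx₁)
      have f2 := Chain_snd hmem
      have e1 : (a (i + m) * w₁ * (a (i + m + 1) * w₂)⁻¹).2 =
          (a (i + m)).2 * hw q g (i + m) (k + 1) x₁ *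
            ((a (i + m + 1)).2 * hw q g (i + m + 1) k x₂)⁻¹ := by
        rw [← hw1, ← hw2]
        rfl
      rw [e1] at f2
      have f3 : Chain_P H ((a (i + m + 1)).2 * hw q g (i + m + 1) k x₂) := by
        have h := Chain_mul (Chain_inv f2) (Chain_mul hPl f1)
        have e : ((a (i + m)).2 * hw q g (i + m) (k + 1) x₁ *
            ((a (i + m + 1)).2 * hw q g (i + m + 1) k x₂)⁻¹)⁻¹ *
            ((a (i + m)).2 * hw q g (i + m) (k + 1) x₁) =
            (a (i + m + 1)).2 * hw q g (i + m + 1) k x₂ := by group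
        rwa [e] at h
      have hx₂' : x₂ < Qr q (i + m + 1) (k + 1) := by
        rw [Qr_succ]
        exact lt_of_lt_of_le hx₂ (Nat.le_mul_of_pos_right _
          (lt_of_lt_of_le (by norm_num) (hq _).1))
      have f4 := hA (i + m + 1) (by omega) (by omega) x₂ hx₂'
      rw [hw_extend hq hg (i + m + 1) k 1 hx₂] at f4
      have h := Chain_mul (Chain_inv f4) f3
      have e : ((a (i + m + 1)).2 * hw q g (i + m + 1) k x₂ * ((a (i + m + 1)).2)⁻¹)⁻¹ *
          ((a (i + m + 1)).2 * hw q g (i + m + 1) k x₂) = (a (i + m + 1)).2 := by group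
      rwa [e] at h
  have hb' : ∀ l, i ≤ l → l < t → Chain_P H (a l).2 := by
    intro l hl hlt
    have e : l = i + (l - i) := by omega
    rw [e]
    exact hb (l - i) (by omega)
  -- the digit values lie in `P`
  have hgd : ∀ j d, s ≤ j → j < t → d < q j → Chain_P H (g j d) := by
    intro j d hj hjt hd
    have hd1 : d < Qr q j 1 := by
      rw [Qr_succ, Qr_zero, Nat.one_mul]
      exact hd
    have hd2 : d < Qr q j (k + 1) := by
      have e : k + 1 = 1 + k := by omega
      rw [e, Qr_add]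
      exact lt_of_lt_of_le hd1 (Nat.le_mul_of_pos_right _ (Qr_pos hq _ _))
    have f := Chain_unconj (hb' j (by omega) hjt) (hA j (by omega) hjt d hd2)
    have e : k + 1 = 1 + k := by omega
    rw [e, hw_extend hq hg j 1 k hd1, hw_one_len, Nat.mod_eq_of_lt hd] at f
    exact f
  have hGam : ∀ γ ∈ Gam q g s t, Chain_P H γ := by
    intro γ hγ
    unfold Gam at hγ
    induction hγ using Subgroup.closure_induction with
    | mem x hx =>
      obtain ⟨j, d, h3, h4, h5, rfl⟩ := hx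
      exact hgd j d h3 h4 h5
    | one => exact Chain_one H
    | mul x y _ _ hx hy => exact Chain_mul hx hy
    | inv x _ hx => exact Chain_inv hx
  -- the defects
  have hY : ∀ j, s ≤ j → j < t → ∀ y ∈ Yj q g j, ((1 : G), y) ∈ H := by
    intro j hj hjt y' hy'
    have e : j - k + k = j := by omega
    refine Chain_unconj1 (hb' (j - k) (by omega) (by omega)) (hB (j - k) (by omega) (by omega) y' ?_)
    rw [e]
    exact hy'
  have hX : ∀ y ∈ Xs q g s t, ((1 : G), y) ∈ H := by
    rintro y' (⟨j, d, h3, h4, h5, h6⟩ | ⟨j, h3, h4, h5⟩)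
    · exact hY j h3 h4 y' (Or.inl ⟨d, h5, h6⟩)
    · exact hY j h3 (by omega) y' (Or.inr h5)
  unfold Nlin at hy
  induction hy using Subgroup.closure_induction with
  | mem x hx =>
    obtain ⟨γ, hγ, z, hz, rfl⟩ := hx
    exact Chain_conj1 (hGam γ hγ) (hX z hz)
  | one => exact H.one_mem
  | mul x y _ _ hx hy =>
    have h := H.mul_mem hx hy
    have e : ((1 : G), x) * ((1 : G), y) = ((1 : G), x * y) := by
      apply Prod.ext
      · show (1 : G) * 1 = 1
        group
      · rfl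
    rwa [e] at h
  | inv x _ hx =>
    have h := H.inv_mem hx
    have e : ((1 : G), x)⁻¹ = ((1 : G), x⁻¹) := by
      apply Prod.ext
      · show (1 : G)⁻¹ = 1
        group
      · rfl
    rwa [e] at h

end Pool.Agent.Lib.MP_3e612f_nt.PS
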