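import Pool.Agent.Lib.MP_3e612f_nt.PB.Floor

/-! Functions of the residues of `⌊(n + s) / D_i⌋` are orthogonal to the Moebius function, uniformly
in the `D_i` and in the shift `s` (blueprint, section Floor). -/

set_option autoImplicit false

namespace Pool.Agent.Lib.MP_3e612f_nt.PS

open Finset
open Pool.Agent.Lib.MP_3e612f_nt.PB

theorem FloorA_Wn_mono {w : ℕ → ℂ} {C C' : ℝ} (h : Wn w C) (hC : C ≤ C') : Wn w C' := by
  obtain ⟨m, b, θ, hb, hθ⟩ := h
  exact ⟨m, b, θ, hb.trans hC, hθ⟩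

open Classical in
theorem FloorA_core {N Q S : ℕ} (hQ : 1 ≤ Q) (hS : 1 ≤ S) (hSQ : S ≤ Q) (a : ℕ → ℝ)
    (h0 : ∀ n, 0 ≤ a n) (h1 : ∀ n, a n ≤ 1) (hper : ∀ n, a (n + Q) = a n) {C K : ℝ}
    (hC : Real.sqrt ((Q : ℝ) / S) ≤ C)
    (hK : (((Icc 1 N).filter (fun n => ∃ t < S, a (n + t) ≠ a n)).card : ℝ) ≤ K) :
    ∃ a' : ℕ → ℝ, (∀ n, |a' n| ≤ 1) ∧ Wn (fun n => (a' n : ℂ)) C ∧
      ∑ n ∈ Icc 1 N, |a n - a' n| ≤ K := by
  have hSr : (1 : ℝ) ≤ S := by exact_mod_cast hS
  have ha01 : ∀ n, |a n| ≤ 1 := by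
    intro n
    rw [abs_of_nonneg (h0 n)]
    exact h1 n
  refine ⟨fun n => (∑ t ∈ range S, a (n + t)) / S, ?_, ?_, ?_⟩
  · intro n
    rw [abs_div, Nat.abs_cast, div_le_one (by linarith)]
    refine (Finset.abs_sum_le_sum_abs _ _).trans ?_
    refine (Finset.sum_le_sum (fun i _ => ha01 (n + i))).trans ?_
    simp
  · exact FloorA_Wn_mono (Wn_smooth hQ hS hSQ a ha01 hper) hC
  · have hpt : ∀ n ∈ Icc 1 N, |a n - (∑ t ∈ range S, a (n + t)) / S| ≤
        if (∃ t < S, a (n + t) ≠ a n) then (1 : ℝ) else 0 := by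
      intro n _
      split_ifs with h
      · have hw0 : 0 ≤ (∑ t ∈ range S, a (n + t)) / S := by
          apply div_nonneg _ (by linarith)
          exact Finset.sum_nonneg fun t _ => h0 _
        have hw1 : (∑ t ∈ range S, a (n + t)) / S ≤ 1 := by
          rw [div_le_one (by linarith)]
          refine (Finset.sum_le_sum (fun i _ => h1 (n + i))).trans ?_
          simp
        have := h0 n
        have := h1 n
        rw [abs_le]
        constructor <;> linarith
      · push Not at h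
        have hs : ∀ t ∈ range S, a (n + t) = a n := fun t ht => h t (mem_range.1 ht)
        rw [Finset.sum_congr rfl hs, Finset.sum_const, card_range, nsmul_eq_mul]
        have : (S : ℝ) * a n / S = a n := by field_simp
        rw [this, sub_self, abs_zero]
    refine (Finset.sum_le_sum hpt).trans ?_
    rw [← Finset.sum_filter, Finset.sum_const, nsmul_eq_mul, mul_one]
    exact hK

theorem FloorA_count_shift (N D S s : ℕ) (hD : 1 ≤ D) :
    ((Icc 1 N).filter (fun n => D < (n + s) % D + S)).card ≤ (N / D + 2) * (S - 1) := by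
  have hge : ∀ n, n ∈ Icc 1 N → (1 + s) / D ≤ (n + s) / D := by
    intro n hn
    rw [mem_Icc] at hn
    exact Nat.div_le_div_right (by omega)
  have hinj : Set.InjOn (fun n : ℕ => ((n + s) / D - (1 + s) / D, (n + s) % D))
      ((Icc 1 N).filter (fun n => D < (n + s) % D + S)) := by
    intro x hx y hy hxy
    simp only [coe_filter, Set.mem_ofPred_eq] at hx hy
    simp only [Prod.mk.injEq] at hxy
    have h1 := hge x hx.1
    have h2 := hge y hy.1
    have h3 : (x + s) / D = (y + s) / D := by omega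
    have h4 : x + s = y + s := by
      rw [← Nat.div_add_mod (x + s) D, ← Nat.div_add_mod (y + s) D, h3, hxy.2]
    omega
  have hsub : ((Icc 1 N).filter (fun n => D < (n + s) % D + S)).image
      (fun n : ℕ => ((n + s) / D - (1 + s) / D, (n + s) % D)) ⊆
      range (N / D + 2) ×ˢ Ico (D + 1 - S) D := by
    intro p hp
    simp only [mem_image, mem_filter, mem_Icc] at hp
    obtain ⟨n, ⟨⟨hn1, hn2⟩, hn3⟩, rfl⟩ := hp
    simp only [mem_product, mem_range, mem_Ico]
    refine ⟨?_, ?_, Nat.mod_lt _ (by omega)⟩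
    · have h5 : (n + s) / D ≤ (N + (1 + s)) / D := Nat.div_le_div_right (by omega)
      have h6 : (N + (1 + s)) / D =
          N / D + (1 + s) / D + if D ≤ N % D + (1 + s) % D then 1 else 0 := Nat.add_div (by omega)
      have h7 := hge n (mem_Icc.2 ⟨hn1, hn2⟩)
      have h8 : (if D ≤ N % D + (1 + s) % D then 1 else 0) ≤ 1 := by split_ifs <;> omega
      generalize (if D ≤ N % D + (1 + s) % D then 1 else 0) = z at h6 h8
      generalize N / D = y1 at h5 h6 ⊢
      generalize (1 + s) / D = y2 at h5 h6 h7 ⊢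
      generalize (n + s) / D = y3 at h5 h6 h7 ⊢
      omega
    · omega
  have h1 := Finset.card_le_card hsub
  rw [Finset.card_image_of_injOn hinj, card_product, card_range, Nat.card_Ico] at h1
  refine h1.trans (Nat.mul_le_mul_left _ ?_)
  omega

theorem FloorA_floor {x : ℝ} (hx : 0 ≤ x) :
    ((max 1 ⌊x⌋₊ - 1 : ℕ) : ℝ) ≤ x := by
  rcases le_total 1 ⌊x⌋₊ with h | h
  · rw [max_eq_right h]
    have h4 : ((⌊x⌋₊ : ℕ) : ℝ) ≤ x := Nat.floor_le hx
    have h5 : ((⌊x⌋₊ - 1 : ℕ) : ℝ) ≤ (⌊x⌋₊ : ℝ) := by exact_mod_cast Nat.sub_le _ _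
    linarith
  · rw [max_eq_left h]
    simpa using hx

/-- one factor: an approximation by a function with bounded sum of Fourier coefficients -/
theorem one_factor (M : ℕ) (hM : 1 ≤ M) {δ : ℝ} (hδ : 0 < δ) (hδ1 : δ ≤ 1) {N : ℕ}
    (hN : 1 / δ ≤ N) {D : ℕ} (hD : 1 ≤ D) (s e : ℕ) :
    ∃ a' : ℕ → ℝ, (∀ n, |a' n| ≤ 1) ∧ Wn (fun n => (a' n : ℂ)) (Real.sqrt (4 * M / δ)) ∧
      ∑ n ∈ Icc 1 N, |(if (n + s) / D % M = e then (1 : ℝ) else 0) - a' n| ≤ 6 * δ * N := by
  classical
  have hMr : (1 : ℝ) ≤ M := by exact_mod_cast hM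
  have hDr : (1 : ℝ) ≤ D := by exact_mod_cast hD
  have hN0 : (1 : ℝ) ≤ δ * N := by
    rw [div_le_iff₀ hδ] at hN
    linarith
  have hNr : (0 : ℝ) ≤ N := Nat.cast_nonneg N
  have hN1 : 1 ≤ N := by
    have : (1 : ℝ) ≤ N := by nlinarith
    exact_mod_cast this
  rcases le_or_gt D N with hDN | hDN
  · -- period `M D`
    have hDN' : (D : ℝ) ≤ N := by exact_mod_cast hDN
    obtain ⟨S, hS⟩ : ∃ S : ℕ, S = max 1 ⌊δ * D⌋₊ := ⟨_, rfl⟩
    have hS1 : 1 ≤ S := by rw [hS]; exact le_max_left _ _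
    have hSD : S ≤ D := by
      rw [hS]
      apply max_le hD
      apply Nat.floor_le_of_le
      nlinarith
    have hSQ : S ≤ M * D := hSD.trans (Nat.le_mul_of_pos_left _ (by omega))
    have hSr : (1 : ℝ) ≤ S := by exact_mod_cast hS1
    have hratio : (D : ℝ) / S ≤ 2 / δ := by
      rw [div_le_div_iff₀ (by linarith) hδ]
      by_cases h1 : 1 ≤ δ * D
      · have h2 : δ * D < ⌊δ * D⌋₊ + 1 := Nat.lt_floor_add_one _
        have h3 : (⌊δ * D⌋₊ : ℝ) ≤ S := by
          rw [hS]
          exact_mod_cast le_max_right _ _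
        linarith
      · push Not at h1
        linarith
    refine FloorA_core (Q := M * D) (S := S) (N := N)
      (Nat.one_le_iff_ne_zero.mpr (Nat.mul_ne_zero (by omega) (by omega))) hS1 hSQ
      (fun n => if (n + s) / D % M = e then (1 : ℝ) else 0) ?_ ?_ ?_ ?_ ?_
    · intro n; split_ifs <;> norm_num
    · intro n; split_ifs <;> norm_num
    · intro n
      rw [show n + M * D + s = n + s + M * D by ring, Nat.add_mul_div_right _ _ (by omega),
        Nat.add_mod_right]
    · apply Real.sqrt_le_sqrt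
      push_cast
      rw [mul_div_assoc]
      calc (M : ℝ) * (D / S) ≤ M * (2 / δ) := mul_le_mul_of_nonneg_left hratio (by linarith)
        _ = 2 * M / δ := by ring
        _ ≤ 4 * M / δ := by
          apply div_le_div_of_nonneg_right _ hδ.le
          linarith
    · have hsub : (Icc 1 N).filter (fun n => ∃ t < S,
          (if (n + t + s) / D % M = e then (1 : ℝ) else 0) ≠
            (if (n + s) / D % M = e then (1 : ℝ) else 0)) ⊆
          (Icc 1 N).filter (fun n => D < (n + s) % D + S) := by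
        intro n hn
        rw [mem_filter] at hn ⊢
        obtain ⟨hn1, t, ht, hne⟩ := hn
        refine ⟨hn1, ?_⟩
        by_contra hcon
        push Not at hcon
        apply hne
        have h5 : (n + s) % D + t < D := by omega
        have : (n + t + s) / D = (n + s) / D := by
          conv_lhs => rw [show n + t + s = (n + s) + t by ring, ← Nat.div_add_mod (n + s) D]
          rw [add_assoc, Nat.mul_add_div (by omega), Nat.div_eq_of_lt h5, add_zero]
        rw [this]
      have hc := (Finset.card_le_card hsub).trans (FloorA_count_shift N D S s hD)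
      have hc' : (((Icc 1 N).filter (fun n => ∃ t < S,
          (if (n + t + s) / D % M = e then (1 : ℝ) else 0) ≠
            (if (n + s) / D % M = e then (1 : ℝ) else 0))).card : ℝ) ≤
          (N / D + 2) * (S - 1 : ℕ) := by
        refine (Nat.cast_le.mpr hc).trans ?_
        push_cast
        apply mul_le_mul_of_nonneg_right _ (Nat.cast_nonneg _)
        have := @Nat.cast_div_le ℝ _ _ _ N D
        linarith
      refine hc'.trans ?_
      have hS2 : ((S - 1 : ℕ) : ℝ) ≤ δ * D := by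
        rw [hS]
        exact FloorA_floor (by positivity)
      have h6 : ((N : ℝ) / D + 2) * (S - 1 : ℕ) ≤ ((N : ℝ) / D + 2) * (δ * D) :=
        mul_le_mul_of_nonneg_left hS2 (by positivity)
      refine h6.trans ?_
      have h7 : ((N : ℝ) / D + 2) * (δ * D) = δ * N + 2 * δ * D := by
        field_simp
      rw [h7]
      nlinarith
  · -- period `2 N`
    obtain ⟨S, hS⟩ : ∃ S : ℕ, S = max 1 ⌊δ * N⌋₊ := ⟨_, rfl⟩
    have hS1 : 1 ≤ S := by rw [hS]; exact le_max_left _ _
    have hSN : S ≤ N := by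
      rw [hS]
      apply max_le hN1
      apply Nat.floor_le_of_le
      nlinarith
    have hSr : (1 : ℝ) ≤ S := by exact_mod_cast hS1
    have hagree : ∀ n ∈ Icc 1 N, (if (n + s) / D % M = e then (1 : ℝ) else 0) =
        (if (min (n % (2 * N)) N + s) / D % M = e then (1 : ℝ) else 0) := by
      intro n hn
      rw [mem_Icc] at hn
      rw [Nat.mod_eq_of_lt (show n < 2 * N by omega), min_eq_left hn.2]
    have hmain := FloorA_core (Q := 2 * N) (S := S) (N := N) (by omega) hS1 (by omega)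
      (fun n => if (min (n % (2 * N)) N + s) / D % M = e then (1 : ℝ) else 0)
      (C := Real.sqrt (4 * M / δ)) (K := 6 * δ * N) ?_ ?_ ?_ ?_ ?_
    · obtain ⟨a', h1, h2, h3⟩ := hmain
      refine ⟨a', h1, h2, ?_⟩
      rw [Finset.sum_congr rfl fun n hn => by rw [hagree n hn]]
      exact h3
    · intro n; split_ifs <;> norm_num
    · intro n; split_ifs <;> norm_num
    · intro n
      rw [Nat.add_mod_right]
    · apply Real.sqrt_le_sqrt
      push_cast
      have h2 : δ * N < ⌊δ * N⌋₊ + 1 := Nat.lt_floor_add_one _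
      have h3 : (⌊δ * N⌋₊ : ℝ) ≤ S := by
        rw [hS]
        exact_mod_cast le_max_right _ _
      rw [div_le_div_iff₀ (by linarith) hδ]
      have h4 : δ * N ≤ 2 * S := by linarith
      nlinarith
    · have hval : ∀ x, 1 ≤ x → x < 2 * N → (1 + s) / D ≤ (min (x % (2 * N)) N + s) / D ∧
          (min (x % (2 * N)) N + s) / D ≤ (1 + s) / D + 1 := by
        intro x hx1 hx2
        rw [Nat.mod_eq_of_lt hx2]
        constructor
        · exact Nat.div_le_div_right (by
            have : 1 ≤ min x N := le_min hx1 hN1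
            omega)
        · have h5 : (min x N + s) / D ≤ (D + (1 + s)) / D := by
            apply Nat.div_le_div_right
            have : min x N ≤ N := min_le_right _ _
            omega
          rw [Nat.add_div_left _ (by omega)] at h5
          exact h5
      obtain ⟨v, hv⟩ : ∃ v, v = (1 + s) / D := ⟨_, rfl⟩
      obtain ⟨x0, hx0⟩ : ∃ x0, x0 = (v + 1) * D - s := ⟨_, rfl⟩
      have hvD : 1 + s < (v + 1) * D := by
        rw [hv, mul_comm]
        exact Nat.lt_mul_div_succ _ (by omega)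
      have hsub : (Icc 1 N).filter (fun n => ∃ t < S,
          (if (min ((n + t) % (2 * N)) N + s) / D % M = e then (1 : ℝ) else 0) ≠
            (if (min (n % (2 * N)) N + s) / D % M = e then (1 : ℝ) else 0)) ⊆
          Ico (x0 - (S - 1)) x0 := by
        intro n hn
        rw [mem_filter, mem_Icc] at hn
        obtain ⟨⟨hn1, hn2⟩, t, ht, hne⟩ := hn
        have hA := hval n hn1 (by omega)
        have hB := hval (n + t) (by omega) (by omega)
        have hneq : (min ((n + t) % (2 * N)) N + s) / D ≠ (min (n % (2 * N)) N + s) / D := by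
          intro h
          exact hne (by rw [h])
        rw [Nat.mod_eq_of_lt (show n < 2 * N by omega)] at hA hneq
        rw [Nat.mod_eq_of_lt (show n + t < 2 * N by omega)] at hB hneq
        rw [min_eq_left hn2] at hA hneq
        have hmono : (n + s) / D ≤ (min (n + t) N + s) / D := by
          apply Nat.div_le_div_right
          have : n ≤ min (n + t) N := le_min (by omega) hn2
          omega
        rw [← hv] at hA hB
        have hC1 : (n + s) / D = v := by omega
        have hC2 : (min (n + t) N + s) / D = v + 1 := by omega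
        have hn3 : n + s < (v + 1) * D := by
          rw [← hC1, mul_comm]
          exact Nat.lt_mul_div_succ _ (by omega)
        have hn4 : (v + 1) * D ≤ n + t + s := by
          have h6 : (v + 1) * D ≤ min (n + t) N + s := by
            rw [← hC2]
            exact Nat.div_mul_le_self _ _
          have h7 : min (n + t) N ≤ n + t := min_le_left _ _
          omega
        rw [mem_Ico]
        omega
      have hc := Finset.card_le_card hsub
      rw [Nat.card_Ico] at hc
      have hc2 := hc.trans (show x0 - (x0 - (S - 1)) ≤ S - 1 by omega)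
      refine (Nat.cast_le.mpr hc2).trans ?_
      have hS2 : ((S - 1 : ℕ) : ℝ) ≤ δ * N := by
        rw [hS]
        exact FloorA_floor (by positivity)
      nlinarith

/-- product of level set indicators -/
theorem floor_indA (M : ℕ) (hM : 1 ≤ M) (R : ℕ) {ε : ℝ} (hε : 0 < ε) :
    ∃ N0 : ℕ, ∀ N ≥ N0, ∀ s : ℕ, ∀ D : Fin R → ℕ, (∀ i, 1 ≤ D i) → ∀ e : Fin R → ℕ,
      |∑ n ∈ Icc 1 N, mu n * ∏ i, (if (n + s) / D i % M = e i then (1 : ℝ) else 0)| ≤ ε * N := by
  obtain ⟨δ, hδd⟩ : ∃ δ : ℝ, δ = min 1 (ε / (12 * (R + 1))) := ⟨_, rfl⟩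
  have hR0 : (0 : ℝ) ≤ R := Nat.cast_nonneg R
  have hδ : 0 < δ := by rw [hδd]; exact lt_min one_pos (by positivity)
  have hδ1 : δ ≤ 1 := by rw [hδd]; exact min_le_left _ _
  have hδ2 : R * (6 * δ) ≤ ε / 2 := by
    have h1 : δ ≤ ε / (12 * (R + 1)) := by rw [hδd]; exact min_le_right _ _
    rw [le_div_iff₀ (by positivity)] at h1
    nlinarith
  obtain ⟨C, hC⟩ : ∃ C : ℝ, C = Real.sqrt (4 * M / δ) := ⟨_, rfl⟩
  have hC0 : 0 ≤ C ^ R := pow_nonneg (by rw [hC]; exact Real.sqrt_nonneg _) _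
  obtain ⟨N0, hN0⟩ := davenport_unif (ε := ε / (2 * (C ^ R + 1))) (by positivity)
  obtain ⟨N1, hN1⟩ := exists_nat_ge (1 / δ)
  refine ⟨max N0 N1, fun N hN s D hD e => ?_⟩
  have hNδ : 1 / δ ≤ N := hN1.trans (by exact_mod_cast (le_max_right _ _).trans hN)
  have hNN0 : N0 ≤ N := (le_max_left _ _).trans hN
  have hsm := fun i => one_factor M hM hδ hδ1 hNδ (hD i) s (e i)
  choose w hw1 hwW hwd using hsm
  obtain ⟨a, ha⟩ : ∃ a : Fin R → ℕ → ℝ,
      a = fun i n => if (n + s) / D i % M = e i then (1 : ℝ) else 0 := ⟨_, rfl⟩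
  have ha' : ∀ i n, a i n = if (n + s) / D i % M = e i then (1 : ℝ) else 0 := by
    intro i n
    rw [ha]
  have ha1 : ∀ i n, |a i n| ≤ 1 := by
    intro i n
    rw [ha']
    split_ifs <;> simp
  have hsplit : ∑ n ∈ Icc 1 N, mu n * ∏ i, a i n =
      ∑ n ∈ Icc 1 N, mu n * (∏ i, a i n - ∏ i, w i n) + ∑ n ∈ Icc 1 N, mu n * ∏ i, w i n := by
    rw [← Finset.sum_add_distrib]
    apply Finset.sum_congr rfl
    intro n _
    ring
  have hgoal : ∑ n ∈ Icc 1 N, mu n * ∏ i, (if (n + s) / D i % M = e i then (1 : ℝ) else 0) =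
      ∑ n ∈ Icc 1 N, mu n * ∏ i, a i n := by
    refine Finset.sum_congr rfl fun n _ => ?_
    congr 1
    exact Finset.prod_congr rfl fun i _ => (ha' i n).symm
  rw [hgoal, hsplit]
  refine (abs_add_le _ _).trans ?_
  have h1 : |∑ n ∈ Icc 1 N, mu n * (∏ i, a i n - ∏ i, w i n)| ≤ ε / 2 * N := by
    refine (Finset.abs_sum_le_sum_abs _ _).trans ?_
    have h2 : ∀ n ∈ Icc 1 N, |mu n * (∏ i, a i n - ∏ i, w i n)| ≤ ∑ i, |a i n - w i n| := by
      intro n _
      rw [abs_mul]
      have h3 := PB.FloorA_prod_diff univ (fun i => a i n) (fun i => w i n) (fun i => ha1 i n)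
        (fun i => hw1 i n)
      calc |mu n| * |∏ i, a i n - ∏ i, w i n| ≤ 1 * |∏ i, a i n - ∏ i, w i n| :=
            mul_le_mul_of_nonneg_right (abs_mu_le n) (abs_nonneg _)
        _ ≤ _ := by rw [one_mul]; exact h3
    refine (Finset.sum_le_sum h2).trans ?_
    rw [Finset.sum_comm]
    have hwd' : ∀ i, ∑ n ∈ Icc 1 N, |a i n - w i n| ≤ 6 * δ * N := by
      intro i
      simp only [ha']
      exact hwd i
    refine (Finset.sum_le_sum (fun i _ => hwd' i)).trans ?_
    rw [Finset.sum_const, card_univ, Fintype.card_fin, nsmul_eq_mul]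
    have hN' : (0 : ℝ) ≤ N := Nat.cast_nonneg N
    nlinarith
  have h2 : |∑ n ∈ Icc 1 N, mu n * ∏ i, w i n| ≤ ε / 2 * N := by
    have hW := Wn_prod (fun i n => (w i n : ℂ)) (C := C) (by rw [hC]; exact hwW)
    have ht := Wn_test hW (fun n => (mu n : ℂ)) N (fun θ => hN0 N hNN0 θ)
    have hre : ∑ n ∈ Icc 1 N, (mu n : ℂ) * ∏ i, (w i n : ℂ) =
        ((∑ n ∈ Icc 1 N, mu n * ∏ i, w i n : ℝ) : ℂ) := by
      push_cast
      rfl
    rw [hre, Complex.norm_real, Real.norm_eq_abs] at ht
    refine ht.trans ?_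
    have hN' : (0 : ℝ) ≤ N := Nat.cast_nonneg N
    have h5 : C ^ R * (ε / (2 * (C ^ R + 1))) ≤ ε / 2 := by
      rw [mul_div_assoc', div_le_div_iff₀ (by positivity) (by norm_num)]
      nlinarith
    calc C ^ R * (ε / (2 * (C ^ R + 1)) * N) = C ^ R * (ε / (2 * (C ^ R + 1))) * N := by ring
      _ ≤ ε / 2 * N := mul_le_mul_of_nonneg_right h5 hN'
  linarith

theorem FloorA_expand {M R' : ℕ} (Ψ : (Fin R' → ℕ) → ℝ) (v : Fin R' → ℕ)
    (hv : ∀ i, v i < M) :
    Ψ v = ∑ e ∈ Fintype.piFinset (fun _ : Fin R' => range M),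
      Ψ e * ∏ i, (if v i = e i then (1 : ℝ) else 0) := by
  have h1 : ∀ e : Fin R' → ℕ, (∏ i, (if v i = e i then (1 : ℝ) else 0)) =
      if e = v then (1 : ℝ) else 0 := by
    intro e
    by_cases h : e = v
    · subst h
      simp
    · rw [if_neg h]
      obtain ⟨i, hi⟩ : ∃ i, e i ≠ v i := by
        by_contra hcon
        push Not at hcon
        exact h (funext hcon)
      refine Finset.prod_eq_zero (Finset.mem_univ i) ?_
      rw [if_neg (fun h' => hi h'.symm)]
  rw [Finset.sum_eq_single v]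
  · rw [h1, if_pos rfl, mul_one]
  · intro e _ hne
    rw [h1, if_neg hne, mul_zero]
  · intro hnot
    exact absurd (Fintype.mem_piFinset.2 fun i => Finset.mem_range.2 (hv i)) hnot

theorem floor_muA (M : ℕ) (hM : 1 ≤ M) (R : ℕ) {ε : ℝ} (hε : 0 < ε) :
    ∃ N0 : ℕ, ∀ N ≥ N0, ∀ s : ℕ, ∀ R' ≤ R, ∀ D : Fin R' → ℕ, (∀ i, 1 ≤ D i) →
      ∀ Ψ : (Fin R' → ℕ) → ℝ, (∀ e, |Ψ e| ≤ 1) →
      |∑ n ∈ Icc 1 N, mu n * Ψ (fun i => (n + s) / D i % M)| ≤ ε * N := by
  have hMr : (1 : ℝ) ≤ M := by exact_mod_cast hM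
  have hpow : ∀ k : ℕ, (1 : ℝ) ≤ (M : ℝ) ^ k := fun k => one_le_pow₀ hMr
  have hε' : 0 < ε / (M : ℝ) ^ R := div_pos hε (by linarith [hpow R])
  have h := fun R' : ℕ => floor_indA M hM R' hε'
  choose N0 hN0 using h
  refine ⟨∑ k ∈ range (R + 1), N0 k, fun N hN s R' hR' D hD Ψ hΨ => ?_⟩
  have hNR : N0 R' ≤ N := by
    refine le_trans ?_ hN
    exact Finset.single_le_sum (f := N0) (fun _ _ => Nat.zero_le _) (Finset.mem_range.2 (by omega))
  have hexp : ∀ n, mu n * Ψ (fun i => (n + s) / D i % M) =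
      ∑ e ∈ Fintype.piFinset (fun _ : Fin R' => range M),
        Ψ e * (mu n * ∏ i, (if (n + s) / D i % M = e i then (1 : ℝ) else 0)) := by
    intro n
    conv_lhs => rw [FloorA_expand (M := M) Ψ (fun i => (n + s) / D i % M)
      (fun i => Nat.mod_lt _ (by omega))]
    rw [Finset.mul_sum]
    refine Finset.sum_congr rfl fun e _ => ?_
    ring
  rw [Finset.sum_congr rfl fun n _ => hexp n, Finset.sum_comm]
  have hcard : ((Fintype.piFinset (fun _ : Fin R' => range M)).card : ℝ) = (M : ℝ) ^ R' := by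
    rw [Fintype.card_piFinset]
    simp
  calc |∑ e ∈ Fintype.piFinset (fun _ : Fin R' => range M), ∑ n ∈ Icc 1 N,
        Ψ e * (mu n * ∏ i, (if (n + s) / D i % M = e i then (1 : ℝ) else 0))|
      ≤ ∑ e ∈ Fintype.piFinset (fun _ : Fin R' => range M), |∑ n ∈ Icc 1 N,
        Ψ e * (mu n * ∏ i, (if (n + s) / D i % M = e i then (1 : ℝ) else 0))| :=
        Finset.abs_sum_le_sum_abs _ _
    _ ≤ ∑ _e ∈ Fintype.piFinset (fun _ : Fin R' => range M), ε / (M : ℝ) ^ R * N := by
        refine Finset.sum_le_sum fun e _ => ?_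
        rw [← Finset.mul_sum, abs_mul]
        have h1 := hN0 R' N hNR s D hD e
        have h2 := hΨ e
        calc |Ψ e| * |∑ n ∈ Icc 1 N,
              mu n * ∏ i, (if (n + s) / D i % M = e i then (1 : ℝ) else 0)|
            ≤ 1 * |∑ n ∈ Icc 1 N,
              mu n * ∏ i, (if (n + s) / D i % M = e i then (1 : ℝ) else 0)| :=
              mul_le_mul_of_nonneg_right h2 (abs_nonneg _)
          _ ≤ ε / (M : ℝ) ^ R * N := by rw [one_mul]; exact h1
    _ = (M : ℝ) ^ R' * (ε / (M : ℝ) ^ R * N) := by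
        rw [Finset.sum_const, nsmul_eq_mul, hcard]
    _ ≤ (M : ℝ) ^ R * (ε / (M : ℝ) ^ R * N) := by
        refine mul_le_mul_of_nonneg_right (pow_le_pow_right₀ hMr hR') ?_
        exact mul_nonneg hε'.le (Nat.cast_nonneg N)
    _ = ε * N := by
        have : (M : ℝ) ^ R ≠ 0 := by linarith [hpow R]
        field_simp

end Pool.Agent.Lib.MP_3e612f_nt.PS
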