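import Pool.Agent.Lib.MP_3e612f_nt.PB.Dig

/-! Truncation of a program on a short interval (blueprint, section Trunc). -/

set_option autoImplicit false

namespace Pool.Agent.Lib.MP_3e612f_nt.PS

open Finset
open Pool.Agent.Lib.MP_3e612f_nt.PB

variable {G : Type} [Group G] {q : ℕ → ℕ} {B : ℕ}

private theorem Trunc_congr {g g' : ℕ → ℕ → G} (j k n : ℕ)
    (h : ∀ i, j ≤ i → i < j + k → g' i = g i) : hw q g' j k n = hw q g j k n := by
  induction k generalizing j n with
  | zero => rw [hw_zero_len, hw_zero_len]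
  | succ k ih =>
    have e1 : hw q g' j (k + 1) n = g' j (n % q j) * hw q g' (j + 1) k (n / q j) := rfl
    have e2 : hw q g j (k + 1) n = g j (n % q j) * hw q g (j + 1) k (n / q j) := rfl
    rw [e1, e2, h j le_rfl (by omega), ih (j + 1) (n / q j) fun i h1 h2 => h i (by omega) (by omega)]

/-- on `n ≤ N < Qr q 0 L'` the shifted product over `L` digits is a product over at most `L' + 1`
digits -/
theorem trunc (hq : Rad B q) (g : ℕ → ℕ → G) (L s : ℕ) {N L' : ℕ} (hN : N < Qr q 0 L') :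
    ∃ (g' : ℕ → ℕ → G) (L₁ : ℕ), L₁ ≤ L' + 1 ∧
      ∀ n, 1 ≤ n → n ≤ N → hw q g 0 L (n + s) = hw q g' 0 L₁ (n + s) := by
  classical
  rcases le_or_gt L (L' + 1) with hL | hL
  · exact ⟨g, L, hL, fun n _ _ => rfl⟩
  · obtain ⟨l, rfl⟩ : ∃ l, L = L' + l := ⟨L - L', by omega⟩
    have hQ : 0 < Qr q 0 L' := by omega
    refine ⟨fun j d => if j = L' then
        (if d = ((1 + s) / Qr q 0 L') % q L' then hw q g L' l ((1 + s) / Qr q 0 L')
          else hw q g L' l ((1 + s) / Qr q 0 L' + 1))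
        else g j d, L' + 1, le_rfl, fun n hn1 hnN => ?_⟩
    rw [hw_add, hw_add, hw_one_len, Nat.zero_add]
    congr 1
    · refine (Trunc_congr 0 L' (n + s) fun i _ hi => ?_).symm
      funext d
      rw [if_neg (by omega)]
    · rw [if_pos rfl]
      have h1 : (1 + s) / Qr q 0 L' ≤ (n + s) / Qr q 0 L' := Nat.div_le_div_right (by omega)
      have h2 : (n + s) / Qr q 0 L' ≤ (1 + s) / Qr q 0 L' + 1 := by
        rw [← Nat.add_div_right _ hQ]
        exact Nat.div_le_div_right (by omega)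
      rcases Nat.lt_or_ge ((1 + s) / Qr q 0 L') ((n + s) / Qr q 0 L') with h3 | h3
      · have h4 : (n + s) / Qr q 0 L' = (1 + s) / Qr q 0 L' + 1 := by omega
        rw [h4, if_neg]
        intro h5
        have h6 : (1 + s) / Qr q 0 L' + 1 ≡ (1 + s) / Qr q 0 L' + 0 [MOD q L'] := h5
        have h7 : 1 ≡ 0 [MOD q L'] := Nat.ModEq.add_left_cancel' _ h6
        have h8 : q L' ∣ 1 := (Nat.modEq_zero_iff_dvd).1 h7
        have h9 := (hq L').1
        have h10 := Nat.le_of_dvd one_pos h8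
        omega
      · have h4 : (n + s) / Qr q 0 L' = (1 + s) / Qr q 0 L' := le_antisymm h3 h1
        rw [h4, if_pos rfl]

end Pool.Agent.Lib.MP_3e612f_nt.PS
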