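import Pool.Agent.Lib.MP_3e612f_nt.PS.PairBlock
import Pool.Agent.Lib.MP_3e612f_nt.PS.FloorA
import Pool.Agent.Lib.MP_3e612f_nt.PS.Trunc
import Pool.Agent.Lib.MP_3e612f_nt.PB.Final

/-! Assembly, uniformly in the shift. -/

set_option autoImplicit false

namespace Pool.Agent.Lib.MP_3e612f_nt.PS

open Finset Filter Topology
open Pool.Agent.Lib.MP_3e612f_nt.PB

/-- short programs: at most one digit more than needed for `N` -/
theorem main_short (G : Type) [Group G] [Fintype G] (B : ℕ) {ε : ℝ} (hε : 0 < ε) :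
    ∃ N0 : ℕ, ∀ N ≥ N0, ∀ q : ℕ → ℕ, Rad B q → ∀ g : ℕ → ℕ → G, Neu g → ∀ (L s L' : ℕ),
      L ≤ L' + 1 → (∀ l, l < L' → Qr q 0 l ≤ N) → ∀ (F : G → ℝ), (∀ x, |F x| ≤ 1) →
      |∑ n ∈ Icc 1 N, mu n * F (hw q g 0 L (n + s))| ≤ ε * N := by
  classical
  by_cases hB : 2 ≤ B
  swap
  · refine ⟨0, fun N _ q hq => ?_⟩
    have := hq 0
    omega
  obtain ⟨P, δ, N1, hP, hδ, hkat⟩ := katai_fin (A := 2) (by norm_num)
    (max B (Fintype.card G)) (half_pos hε)
  -- the parameter k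
  obtain ⟨k, hk⟩ : ∃ k : ℕ, ∀ p ∈ P, ∀ r ∈ P, p * r < 2 ^ k := by
    refine ⟨P.sup id * P.sup id, fun p hp r hr => ?_⟩
    have h1 : p ≤ P.sup id := Finset.le_sup (f := id) hp
    have h2 : r ≤ P.sup id := Finset.le_sup (f := id) hr
    calc p * r ≤ P.sup id * P.sup id := Nat.mul_le_mul h1 h2
      _ < 2 ^ (P.sup id * P.sup id) := Nat.lt_two_pow_self
  set ρ : ℝ := rho G B k with hρ
  have hρ1 : ρ < 1 := rho_lt_one G B k
  have hρ0 : 0 ≤ ρ := rho_nonneg G B k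
  set β : ℕ → ℝ := fun κ => (4 * (Fintype.card G : ℝ)) * Real.sqrt (ρ ^ (κ / (5 * k + 1) - 1))
    with hβ
  have hβt : Tendsto β atTop (𝓝 0) := beta_tendsto _ hρ0 hρ1 k
  have hβ0 : ∀ n, 0 ≤ β n := fun n => by
    rw [hβ]
    positivity
  obtain ⟨R, hR⟩ := exists_dec G β hβ0 hβt (δ := δ / 4) (by linarith)
  obtain ⟨w, hww⟩ : ∃ w : ℕ, 16 / δ < 2 ^ w := pow_unbounded_of_one_lt _ one_lt_two
  have hM : 1 ≤ Fintype.card G * B.factorial :=
    Nat.mul_pos Fintype.card_pos (Nat.factorial_pos B)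
  obtain ⟨N2, hfl⟩ := floor_muA (Fintype.card G * B.factorial) hM (R + w + 4) (half_pos hε)
  obtain ⟨N3, hN3⟩ := exists_nat_gt (16 / δ)
  refine ⟨max (max N1 N2) (max N3 1), fun N hN q hq g hg L s L' hLL' hL'2 F hF => ?_⟩
  have hNN1 : N1 ≤ N := le_trans (le_trans (le_max_left _ _) (le_max_left _ _)) hN
  have hNN2 : N2 ≤ N := le_trans (le_trans (le_max_right _ _) (le_max_left _ _)) hN
  have hNN3 : N3 ≤ N := le_trans (le_trans (le_max_left _ _) (le_max_right _ _)) hN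
  have hNN4 : 1 ≤ N := le_trans (le_trans (le_max_right _ _) (le_max_right _ _)) hN
  have hNpos : (0 : ℝ) < N := by exact_mod_cast hNN4
  have hδN : 1 ≤ δ / 16 * N := by
    have h1 : (16 / δ : ℝ) < N := lt_of_lt_of_le hN3 (by exact_mod_cast hNN3)
    rw [div_lt_iff₀ hδ] at h1
    linarith
  set L1 := L with hL1
  -- the inner number of positions
  set K := Nat.findGreatest (fun l => (Qr q 0 l : ℝ) ≤ δ / 16 * N) L1 with hK
  have hK0 : (Qr q 0 K : ℝ) ≤ δ / 16 * N := by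
    have := Nat.findGreatest_spec (P := fun l => (Qr q 0 l : ℝ) ≤ δ / 16 * N) (m := 0) (n := L1)
      (Nat.zero_le _) (by rw [Qr_zero]; simpa using hδN)
    exact this
  have hKL : K ≤ L1 := Nat.findGreatest_le _
  have hKw : L1 - K ≤ w + 3 := by
    by_contra hcon'
    push Not at hcon'
    have h1 : ¬ ((Qr q 0 (K + 1) : ℝ) ≤ δ / 16 * N) :=
      Nat.findGreatest_is_greatest (P := fun l => (Qr q 0 l : ℝ) ≤ δ / 16 * N)
        (Nat.lt_succ_self K) (by omega)
    push Not at h1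
    have h2 : Qr q 0 (L1 - 2) ≤ N := hL'2 _ (by omega)
    have h3 : Qr q 0 (L1 - 2) = Qr q 0 (K + 1) * Qr q (0 + (K + 1)) (L1 - 2 - (K + 1)) := by
      rw [← Qr_add]
      congr 1
      omega
    have h4 : 2 ^ (L1 - 2 - (K + 1)) ≤ Qr q (0 + (K + 1)) (L1 - 2 - (K + 1)) :=
      two_pow_le_Qr hq _ _
    have h5 : 2 ^ w ≤ 2 ^ (L1 - 2 - (K + 1)) := Nat.pow_le_pow_right (by norm_num) (by omega)
    have h6 : Qr q 0 (K + 1) * 2 ^ w ≤ N := by
      calc Qr q 0 (K + 1) * 2 ^ w ≤ Qr q 0 (K + 1) * Qr q (0 + (K + 1)) (L1 - 2 - (K + 1)) :=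
            Nat.mul_le_mul_left _ (h5.trans h4)
        _ = Qr q 0 (L1 - 2) := h3.symm
        _ ≤ N := h2
    have h7 : (Qr q 0 (K + 1) : ℝ) * 2 ^ w ≤ N := by exact_mod_cast h6
    have h8 : δ / 16 * N * 2 ^ w < N := by
      refine lt_of_lt_of_le ?_ h7
      exact mul_lt_mul_of_pos_right h1 (by positivity)
    have h9 : 1 < δ / 16 * 2 ^ w := by
      rw [div_lt_iff₀ hδ] at hww
      linarith
    have h10 : (N : ℝ) < δ / 16 * N * 2 ^ w := by
      calc (N : ℝ) = 1 * N := (one_mul _).symm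
        _ < (δ / 16 * 2 ^ w) * N := mul_lt_mul_of_pos_right h9 hNpos
        _ = δ / 16 * N * 2 ^ w := by ring
    linarith
  -- the decomposition
  obtain ⟨n, hnR, c, hc0, hcn, hc, S, κ, hSn, hSs, hSr, hSβ⟩ :=
    hR (Nlin q g) (fun a b a' b' h1 h2 => Nlin_mono h1 h2) K
  obtain ⟨c', hc'0, hc'n, hc', hc'e, hc's⟩ := extend_dec hc0 hcn hc hKL S hSn hSs
  set n' := n + (L1 - K) with hn'
  have hSn' : S ⊆ range n' := fun i hi => by
    have := Finset.mem_range.1 (hSn hi)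
    rw [Finset.mem_range]; omega
  have hSK : ∀ i ∈ S, c' (i + 1) ≤ K := by
    intro i hi
    have h1 := Finset.mem_range.1 (hSn hi)
    rw [hc'e (i + 1) (by omega), ← hcn]
    exact hc (by omega)
  have hSsp : ∀ i ∈ S, Spaced (Nlin q g) k (c' i) (c' (i + 1)) (κ i / (5 * k + 1) - 1) := by
    intro i hi
    have h1 := Finset.mem_range.1 (hSn hi)
    rw [hc'e (i + 1) (by omega), hc'e i (by omega)]
    by_cases h2 : κ i / (5 * k + 1) = 0
    · rw [h2]
      exact ⟨fun _ => 0, fun _ => 0, fun i hi => absurd hi (by omega),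
        fun i hi => absurd hi (by omega)⟩
    · refine spaced_of_rich (hSr i hi) ?_
      have h3 : κ i / (5 * k + 1) - 1 + 1 = κ i / (5 * k + 1) :=
        Nat.sub_add_cancel (Nat.one_le_iff_ne_zero.2 h2)
      rw [h3, mul_comm]
      exact Nat.div_mul_le_self _ _
  -- splitting
  obtain ⟨We, Δ, hWe, hinv, hsum, hΔ, hbal, hzero⟩ := exists_split (n := n')
    (fun i => if (i : ℕ) ∈ S then Nlin q g (c' i) (c' (i + 1)) else ⊥)
    (fun ω => F (List.ofFn ω).prod) (fun ω => hF _)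
  set z : ℕ → Fin n' → G := fun x j => zz q g c' j x with hz
  have hval : ∀ m, F (hw q g 0 L1 m) = We (z m) + ∑ i, Δ i (z m) := by
    intro m
    rw [← hsum (z m), ← hc'n, ← zz_prod q g hc'0 hc' n' m]
  -- the structured part
  obtain ⟨Ψ, hΨ, hΨe⟩ := str_rep hq hg hc'0 hc' (n := n') S hc's We hWe (by
    intro i hi
    have := hinv i
    rwa [if_pos hi] at this)
  have hstr : |∑ m ∈ Icc 1 N, mu m * We (z (m + s))| ≤ ε / 2 * N := by
    have h1 : ∀ m, We (z m) = Ψ (fun j => m / Qr q 0 (c' j) % (Fintype.card G * B.factorial)) :=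
      hΨe
    simp only [h1]
    exact hfl N hNN2 s (n' + 1) (by omega) (fun j => Qr q 0 (c' j)) (fun j => Qr_pos hq _ _) Ψ hΨ
  -- the unstructured part
  have hV2 : ∀ ω, |∑ i, Δ i ω| ≤ 2 := by
    intro ω
    have h1 := hsum ω
    have h2 : ∑ i, Δ i ω = F (List.ofFn ω).prod - We ω := by linarith
    rw [h2]
    have h3 := hF (List.ofFn ω).prod
    have h4 := hWe ω
    exact (abs_sub _ _).trans (by linarith)
  have huns : |∑ m ∈ Icc 1 N, mu m * ∑ i, Δ i (z (m + s))| ≤ ε / 2 * N := by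
    refine hkat N hNN1 (fun m => ∑ i, Δ i (z (m + s))) (fun m => hV2 _) ?_
    intro p hp r hr hpr
    have hpp := hP p hp
    have hrr := hP r hr
    have hrq : ∀ j, ¬ r ∣ q j := by
      intro j hd
      have h1 := Nat.le_of_dvd (by have := (hq j).1; omega) hd
      have h2 := (hq j).2
      have h3 := le_max_left B (Fintype.card G)
      omega
    have hGr : Fintype.card G < r := lt_of_le_of_lt (le_max_right _ _) hrr.2
    have hp3 : 3 ≤ p := by
      have h1 := le_max_left B (Fintype.card G)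
      have h2 := hpp.2
      omega
    have hpr2 : p + 2 ≤ r := by
      have h1 : p % 2 = 1 := by
        rcases hpp.1.eq_two_or_odd with h | h
        · omega
        · exact h
      have h2 : r % 2 = 1 := by
        rcases hrr.1.eq_two_or_odd with h | h
        · omega
        · exact h
      omega
    have hτ0 : 0 ≤ ∑ i ∈ S, 4 * (Fintype.card G : ℝ) *
        Real.sqrt (rho G B k ^ (κ i / (5 * k + 1) - 1)) :=
      Finset.sum_nonneg fun i _ => by positivity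
    have hblock := fun y => pair_blockA hq hg (by omega : 2 ≤ p) hpr2 hrr.1 hrq (hk p hp r hr) hGr
      hc'0 hc' (n := n') (K := K) S hSn' hSK (fun i => κ i / (5 * k + 1) - 1) hSsp
      (fun ω => ∑ i, Δ i ω) Δ hV2 hΔ (fun _ => rfl)
      (by
        intro i hi
        have := hbal i
        rwa [if_pos hi] at this)
      (by
        intro i hi ω
        exact hzero i (if_neg hi) ω) s s y
    have h1 := sum_of_blocks (fun m => (∑ i, Δ i (z (p * m + s))) * ∑ i, Δ i (z (r * m + s)))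
      (by
        intro m
        rw [abs_mul]
        have h2 := hV2 (z (p * m + s))
        have h3 := hV2 (z (r * m + s))
        calc |∑ i, Δ i (z (p * m + s))| * |∑ i, Δ i (z (r * m + s))| ≤ 2 * 2 :=
              mul_le_mul h2 h3 (abs_nonneg _) (by norm_num)
          _ = 4 := by norm_num)
      (Qr_pos hq 0 K) hτ0 hblock (N / r)
    refine h1.trans ?_
    have h2 : ∑ i ∈ S, 4 * (Fintype.card G : ℝ) *
        Real.sqrt (rho G B k ^ (κ i / (5 * k + 1) - 1)) ≤ δ / 4 := hSβ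
    have h3 : ((N / r : ℕ) : ℝ) ≤ N := by exact_mod_cast Nat.div_le_self N r
    have h4 : (1 : ℝ) ≤ N := by exact_mod_cast hNN4
    have h5 : (∑ i ∈ S, 4 * (Fintype.card G : ℝ) *
        Real.sqrt (rho G B k ^ (κ i / (5 * k + 1) - 1))) * (((N / r : ℕ) : ℝ) + 1)
        ≤ δ / 4 * (N + N) := by
      refine mul_le_mul h2 (by linarith) (by positivity) (by linarith)
    linarith
  have hfin : ∑ m ∈ Icc 1 N, mu m * F (hw q g 0 L1 (m + s)) =
      (∑ m ∈ Icc 1 N, mu m * We (z (m + s))) +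
        ∑ m ∈ Icc 1 N, mu m * ∑ i, Δ i (z (m + s)) := by
    rw [← Finset.sum_add_distrib]
    refine Finset.sum_congr rfl fun m _ => ?_
    rw [hval (m + s)]
    ring
  rw [hfin]
  refine (abs_add_le _ _).trans ?_
  linarith

theorem main_real (G : Type) [Group G] [Fintype G] (B : ℕ) {ε : ℝ} (hε : 0 < ε) :
    ∃ N0 : ℕ, ∀ N ≥ N0, ∀ q : ℕ → ℕ, Rad B q → ∀ (g : ℕ → ℕ → G) (L s : ℕ)
      (F : G → ℝ), (∀ x, |F x| ≤ 1) →
      |∑ n ∈ Icc 1 N, mu n * F (hw q g 0 L (n + s))| ≤ ε * N := by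
  obtain ⟨N0, hN0⟩ := main_short G B hε
  refine ⟨N0, fun N hN q hq g L s F hF => ?_⟩
  have hex : ∃ l, N < Qr q 0 l := ⟨N, lt_Qr_self hq 0 N⟩
  set L' := Nat.find hex with hL'
  have hL'1 : N < Qr q 0 L' := Nat.find_spec hex
  have hL'2 : ∀ l, l < L' → Qr q 0 l ≤ N := fun l hl => not_lt.1 (Nat.find_min hex hl)
  obtain ⟨g', L₁, hL₁, he⟩ := trunc hq g L s hL'1
  obtain ⟨g'', t, hg'', hgt⟩ := gauge q g' L₁
  have h1 := hN0 N hN q hq g'' hg'' L₁ s L' hL₁ hL'2 (fun x => F (x * t)) (fun x => hF _)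
  refine le_trans (le_of_eq ?_) h1
  congr 1
  refine Finset.sum_congr rfl fun n hn => ?_
  rw [Finset.mem_Icc] at hn
  rw [he n hn.1 hn.2, hgt]

theorem main_complex (G : Type) [Group G] [Finite G] (B : ℕ) {ε : ℝ} (hε : 0 < ε) :
    ∃ N0 : ℕ, ∀ N ≥ N0, ∀ q : ℕ → ℕ, (∀ j, 2 ≤ q j ∧ q j ≤ B) → ∀ (g : ℕ → ℕ → G) (L s : ℕ)
      (F : G → ℂ), (∀ x, ‖F x‖ ≤ 1) →
      ‖∑ n ∈ Icc 1 N, ((ArithmeticFunction.moebius n : ℤ) : ℂ) * F (hw q g 0 L (n + s))‖ ≤
        ε * N := by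
  have := Fintype.ofFinite G
  obtain ⟨N0, hN0⟩ := main_real G B (half_pos hε)
  refine ⟨N0, fun N hN q hq g L s F hF => ?_⟩
  have h1 := hN0 N hN q hq g L s (fun x => (F x).re)
    (fun x => (Complex.abs_re_le_norm _).trans (hF _))
  have h2 := hN0 N hN q hq g L s (fun x => (F x).im)
    (fun x => (Complex.abs_im_le_norm _).trans (hF _))
  have e : ∑ n ∈ Icc 1 N, ((ArithmeticFunction.moebius n : ℤ) : ℂ) * F (hw q g 0 L (n + s)) =
      ((∑ n ∈ Icc 1 N, mu n * (F (hw q g 0 L (n + s))).re : ℝ) : ℂ) +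
        ((∑ n ∈ Icc 1 N, mu n * (F (hw q g 0 L (n + s))).im : ℝ) : ℂ) * Complex.I := by
    push_cast
    rw [Finset.sum_mul, ← Finset.sum_add_distrib]
    refine Finset.sum_congr rfl fun n _ => ?_
    conv_lhs => rw [← Complex.re_add_im (F (hw q g 0 L (n + s)))]
    unfold mu
    push_cast
    ring
  rw [e]
  refine (norm_add_le _ _).trans ?_
  rw [norm_mul, Complex.norm_I, mul_one, Complex.norm_real, Complex.norm_real, Real.norm_eq_abs,
    Real.norm_eq_abs]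
  linarith

end Pool.Agent.Lib.MP_3e612f_nt.PS
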