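import Pool.Agent.Lib.MP_3e612f_nt.PS.Defs

/-! Elementary arithmetic of carries (blueprint, section Arith). -/

set_option autoImplicit false

namespace Pool.Agent.Lib.MP_3e612f_nt.PS

open Finset
open Pool.Agent.Lib.MP_3e612f_nt.PB

/-- the carry of the `r`-multiple can jump while the carry of the `p`-multiple does not -/
theorem exists_jump {p r X : ℕ} (s t : ℕ) (hpr : p + 2 ≤ r) (hX : r < X) :
    ∃ v, v + 1 < X ∧ (p * (v + 1) + s) / X = (p * v + s) / X ∧
      (r * (v + 1) + t) / X = (r * v + t) / X + 1 := by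
  by_contra hcon
  have hX0 : 0 < X := by omega
  have hno : ∀ v, v + 1 < X → (p * (v + 1) + s) / X = (p * v + s) / X →
      (r * (v + 1) + t) / X ≠ (r * v + t) / X + 1 := fun v h1 h2 h3 => hcon ⟨v, h1, h2, h3⟩
  have hb : ∀ v, (r * (v + 1) + t) / X ≤ (r * v + t) / X + 1 := by
    intro v
    rw [← Nat.add_div_right _ hX0]
    apply Nat.div_le_div_right
    rw [Nat.mul_succ]
    omega
  have hb' : ∀ v, (r * v + t) / X ≤ (r * (v + 1) + t) / X := by
    intro v
    apply Nat.div_le_div_right
    rw [Nat.mul_succ]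
    omega
  have ha : ∀ v, (p * v + s) / X ≤ (p * (v + 1) + s) / X := by
    intro v
    apply Nat.div_le_div_right
    rw [Nat.mul_succ]
    omega
  have key : ∀ v, v < X → (r * v + t) / X + (p * 0 + s) / X ≤ (p * v + s) / X + (r * 0 + t) / X := by
    intro v
    induction v with
    | zero => intro _; omega
    | succ v ih =>
      intro hv
      have h1 := ih (by omega)
      have h2 := hb v
      have h3 := hb' v
      have h4 := ha v
      have h5 := hno v hv
      by_cases h6 : (p * (v + 1) + s) / X = (p * v + s) / X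
      · have h7 := h5 h6
        omega
      · omega
  have h1 := key (X - 1) (by omega)
  have h2 : t / X + (r - 1) ≤ (r * (X - 1) + t) / X := by
    rw [Nat.le_div_iff_mul_le hX0]
    have h3 : t / X * X ≤ t := Nat.div_mul_le_self t X
    obtain ⟨r', rfl⟩ : ∃ r', r = r' + 1 := ⟨r - 1, by omega⟩
    obtain ⟨X', rfl⟩ : ∃ X', X = X' + 1 := ⟨X - 1, by omega⟩
    simp only [Nat.add_sub_cancel]
    have h4 : (t / (X' + 1) + r') * (X' + 1) = t / (X' + 1) * (X' + 1) + r' * (X' + 1) := by ring
    have h5 : (r' + 1) * X' = r' * X' + X' := by ring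
    have h6 : r' * (X' + 1) = r' * X' + r' := by ring
    rw [h4, h5, h6]
    omega
  have h3 : (p * (X - 1) + s) / X ≤ p + s / X := by
    have h4 : (p * (X - 1) + s) / X ≤ (p * X + s) / X := by
      apply Nat.div_le_div_right
      have : p * (X - 1) ≤ p * X := Nat.mul_le_mul_left _ (by omega)
      omega
    have h5 : (p * X + s) / X = p + s / X := by
      rw [Nat.add_comm, Nat.add_mul_div_right _ _ hX0]
      omega
    omega
  have h4 : (p * 0 + s) / X = s / X := by simp
  have h5 : (r * 0 + t) / X = t / X := by simp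
  rw [h4, h5] at h1
  omega

private theorem Arith_mono {p Q s v : ℕ} (h : (p * (v + 1) + s) / Q = (p * v + s) / Q) (x : ℕ)
    (hx : s ≤ x) (hx' : x ≤ s + p) : (p * v + x) / Q = (p * v + s) / Q := by
  apply le_antisymm
  · rw [← h]
    apply Nat.div_le_div_right
    rw [Nat.mul_succ]
    omega
  · apply Nat.div_le_div_right
    omega

private theorem Arith_le (p Q s v : ℕ) : (p * v + s) / Q ≤ (p * (v + 1) + s) / Q := by
  apply Nat.div_le_div_right
  rw [Nat.mul_succ]
  omega

/-- a digit string which makes both carries independent of the lower digits -/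
theorem exists_merge {p r Q : ℕ} (s t : ℕ) (h : p + r < Q) :
    ∃ v, v < Q ∧ (∀ x, s ≤ x → x ≤ s + p → (p * v + x) / Q = (p * v + s) / Q) ∧
      ∀ y, t ≤ y → y ≤ t + r → (r * v + y) / Q = (r * v + t) / Q := by
  by_contra hcon
  have hQ : 0 < Q := by omega
  have hno : ∀ v, v < Q → (p * (v + 1) + s) / Q = (p * v + s) / Q →
      (r * (v + 1) + t) / Q ≠ (r * v + t) / Q := fun v h1 h2 h3 =>
    hcon ⟨v, h1, fun x => Arith_mono h2 x, fun y => Arith_mono h3 y⟩
  have key : ∀ v, v ≤ Q → (p * 0 + s) / Q + (r * 0 + t) / Q + v ≤ (p * v + s) / Q + (r * v + t) / Q := by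
    intro v
    induction v with
    | zero => intro _; omega
    | succ v ih =>
      intro hv
      have h1 := ih (by omega)
      have h2 := Arith_le p Q s v
      have h3 := Arith_le r Q t v
      have h5 := hno v (by omega)
      by_cases h6 : (p * (v + 1) + s) / Q = (p * v + s) / Q
      · have h7 := h5 h6
        omega
      · omega
  have h1 := key Q le_rfl
  have h2 : (p * Q + s) / Q = p + s / Q := by
    rw [Nat.add_comm, Nat.add_mul_div_right _ _ hQ]
    omega
  have h3 : (r * Q + t) / Q = r + t / Q := by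
    rw [Nat.add_comm, Nat.add_mul_div_right _ _ hQ]
    omega
  have h4 : (p * 0 + s) / Q = s / Q := by simp
  have h5 : (r * 0 + t) / Q = t / Q := by simp
  rw [h2, h3, h4, h5] at h1
  omega

theorem exists_residue {r Q : ℕ} (hQ : 0 < Q) (hr : Q.Coprime r) (c : ℕ) {a : ℕ} (ha : a < Q) :
    ∃ v, v < Q ∧ (r * v + c) % Q = a := by
  let f : Fin Q → Fin Q := fun v => ⟨(r * v + c) % Q, Nat.mod_lt _ hQ⟩
  have hinj : Function.Injective f := by
    intro v w h
    have h1 : (r * v + c) % Q = (r * w + c) % Q := congrArg Fin.val h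
    have h2 : r * v ≡ r * w [MOD Q] := Nat.ModEq.add_right_cancel' c h1
    have h3 : (v : ℕ) ≡ w [MOD Q] := Nat.ModEq.cancel_left_of_coprime hr h2
    exact Fin.ext (Nat.ModEq.eq_of_lt_of_lt h3 v.2 w.2)
  obtain ⟨v, hv⟩ := Finite.surjective_of_injective hinj ⟨a, ha⟩
  exact ⟨v, v.2, congrArg Fin.val hv⟩

private theorem Arith_split {r M c v : ℕ} :
    ∃ x, (r * v + c) / M = c / M + x ∧ r * v + c % M = M * x + (r * v + c) % M := by
  have hle : c / M ≤ (r * v + c) / M := Nat.div_le_div_right (Nat.le_add_left _ _)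
  obtain ⟨x, hx⟩ := Nat.exists_eq_add_of_le hle
  refine ⟨x, hx, ?_⟩
  have h1 := Nat.div_add_mod (r * v + c) M
  have h2 := Nat.div_add_mod c M
  rw [hx, Nat.mul_add] at h1
  omega

/-- for results on the same side of `c % M` and in the same class modulo `r` the carries agree -/
theorem carry_eq {r M c v v' : ℕ} (hr : r.Prime) (hM : M.Coprime r) (hv : v < M) (hv' : v' < M)
    (hmod : (r * v + c) % M % r = (r * v' + c) % M % r)
    (hside : ((r * v + c) % M < c % M ∧ (r * v' + c) % M < c % M) ∨
      (c % M ≤ (r * v + c) % M ∧ c % M ≤ (r * v' + c) % M)) :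
    (r * v + c) / M = (r * v' + c) / M := by
  have hr0 : 0 < r := hr.pos
  have hM0 : 0 < M := by omega
  obtain ⟨x, hx, ex⟩ := Arith_split (r := r) (M := M) (c := c) (v := v)
  obtain ⟨y, hy, ey⟩ := Arith_split (r := r) (M := M) (c := c) (v := v')
  rw [hx, hy]
  have hcM : c % M < M := Nat.mod_lt _ hM0
  have hn : (r * v + c) % M < M := Nat.mod_lt _ hM0
  have hn' : (r * v' + c) % M < M := Nat.mod_lt _ hM0
  have hrv : r * v ≤ r * (M - 1) := Nat.mul_le_mul_left _ (by omega)
  have hrv' : r * v' ≤ r * (M - 1) := Nat.mul_le_mul_left _ (by omega)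
  have hrM : r * (M - 1) + r = M * r := by
    obtain ⟨M', rfl⟩ : ∃ M', M = M' + 1 := ⟨M - 1, by omega⟩
    simp only [Nat.add_sub_cancel]
    ring
  have hcong : M * x ≡ M * y [MOD r] := by
    have h1 : M * x + (r * v + c) % M ≡ M * y + (r * v' + c) % M [MOD r] := by
      rw [← ex, ← ey]
      refine Nat.ModEq.add_right _ ?_
      refine ((Nat.modEq_zero_iff_dvd.2 (Dvd.intro v rfl)).trans
        (Nat.modEq_zero_iff_dvd.2 (Dvd.intro v' rfl)).symm)
    have h2 : (r * v + c) % M ≡ (r * v' + c) % M [MOD r] := hmod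
    exact Nat.ModEq.add_right_cancel h2 h1
  have hxy : x ≡ y [MOD r] := Nat.ModEq.cancel_left_of_coprime hM.symm hcong
  have hdvd := (Nat.modEq_iff_dvd.1 hxy)
  have hfin : (y : ℤ) - x = 0 := by
    apply Int.eq_zero_of_abs_lt_dvd hdvd
    rcases hside with ⟨h1, h2⟩ | ⟨h1, h2⟩
    · have hx1 : 1 ≤ x := by
        by_contra h0
        have : x = 0 := by omega
        subst this
        simp at ex
        omega
      have hy1 : 1 ≤ y := by
        by_contra h0
        have : y = 0 := by omega
        subst this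
        simp at ey
        omega
      have hx2 : x ≤ r := by
        by_contra h0
        have h3 : M * (r + 1) ≤ M * x := Nat.mul_le_mul_left _ (by omega)
        have h4 : M * (r + 1) = M * r + M := by ring
        omega
      have hy2 : y ≤ r := by
        by_contra h0
        have h3 : M * (r + 1) ≤ M * y := Nat.mul_le_mul_left _ (by omega)
        have h4 : M * (r + 1) = M * r + M := by ring
        omega
      rw [abs_lt]
      omega
    · have hx2 : x < r := by
        by_contra h0
        have h3 : M * r ≤ M * x := Nat.mul_le_mul_left _ (by omega)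
        omega
      have hy2 : y < r := by
        by_contra h0
        have h3 : M * r ≤ M * y := Nat.mul_le_mul_left _ (by omega)
        omega
      rw [abs_lt]
      omega
  have : x = y := by omega
  rw [this]

end Pool.Agent.Lib.MP_3e612f_nt.PS
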