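import Pool.Agent.Lib.MP_3e612f_nt.PS.Defs
import Pool.Agent.Lib.MP_3e612f_nt.PB.Dig
import Pool.Agent.Lib.MP_3e612f_nt.PB.Trans

/-! Composition of digit blocks (blueprint, section Cu). -/

set_option autoImplicit false

namespace Pool.Agent.Lib.MP_3e612f_nt.PS

open Finset
open Pool.Agent.Lib.MP_3e612f_nt.PB

variable {G : Type} [Group G] {q : ℕ → ℕ} {g : ℕ → ℕ → G} {B : ℕ} {p r : ℕ}

theorem cu_add (hq : Rad B q) (p r i m m' : ℕ) (c : ℕ × ℕ) (u₀ u₁ : ℕ) :
    cu q p r i (m + m') c (u₀ + Qr q i m * u₁) = cu q p r (i + m) m' (cu q p r i m c u₀) u₁ := by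
  have hQ := Qr_pos hq i m
  unfold cu
  rw [Qr_add, ← Nat.div_div_eq_div_mul, ← Nat.div_div_eq_div_mul, TransA_div hQ, TransA_div hQ]

theorem wu_add (hq : Rad B q) (i m m' : ℕ) (c : ℕ × ℕ) (u₀ u₁ : ℕ) :
    wu q g p r i (m + m') c (u₀ + Qr q i m * u₁) =
      wu q g p r i m c u₀ * wu q g p r (i + m) m' (cu q p r i m c u₀) u₁ := by
  have hQ := Qr_pos hq i m
  unfold wu cu
  rw [hw_add, hw_add, TransA_hw hq, TransA_hw hq, TransA_div hQ, TransA_div hQ]
  rfl

theorem cu_zero (q : ℕ → ℕ) (p r i : ℕ) (c : ℕ × ℕ) : cu q p r i 0 c 0 = c := by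
  unfold cu
  rw [Qr_zero]
  simp

theorem wu_zero (q : ℕ → ℕ) (g : ℕ → ℕ → G) (p r i : ℕ) (c : ℕ × ℕ) (u : ℕ) :
    wu q g p r i 0 c u = 1 := by
  unfold wu
  rw [hw_zero_len, hw_zero_len]
  rfl

theorem cu_range (hq : Rad B q) (p r i m : ℕ) (c : ℕ × ℕ) {u : ℕ} (hu : u < Qr q i m) :
    (c.1 / Qr q i m ≤ (cu q p r i m c u).1 ∧ (cu q p r i m c u).1 ≤ c.1 / Qr q i m + p) ∧
      (c.2 / Qr q i m ≤ (cu q p r i m c u).2 ∧ (cu q p r i m c u).2 ≤ c.2 / Qr q i m + r) := by
  have hQ := Qr_pos hq i m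
  have key : ∀ a b : ℕ, b / Qr q i m ≤ (a * u + b) / Qr q i m ∧
      (a * u + b) / Qr q i m ≤ b / Qr q i m + a := by
    intro a b
    refine ⟨Nat.div_le_div_right (Nat.le_add_left _ _), ?_⟩
    calc (a * u + b) / Qr q i m ≤ (b + Qr q i m * a) / Qr q i m := by
          refine Nat.div_le_div_right ?_
          have := Nat.mul_le_mul_left a hu.le
          rw [mul_comm a (Qr q i m)] at this
          omega
      _ = b / Qr q i m + a := Nat.add_mul_div_left _ _ hQ
  exact ⟨key p c.1, key r c.2⟩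

/-- the transfer operator in terms of `cu` and `wu` -/
theorem TT_eq (q : ℕ → ℕ) (g : ℕ → ℕ → G) (p r i m : ℕ) (A : ℕ × ℕ → G × G → ℝ) (c : ℕ × ℕ) :
    TT q g p r i m A c = fun z => (∑ u ∈ range (Qr q i m),
      A (cu q p r i m c u) (z * wu q g p r i m c u)) / (Qr q i m : ℝ) := by
  rfl

variable [Fintype G]

theorem TT_goodA (hq : Rad B q) {N : Subgroup G} {i m : ℕ}
    (hN : ∀ γ ∈ Gam q g i (i + m), ∀ y, y ∈ N ↔ γ * y * γ⁻¹ ∈ N) {S : ℝ}
    {A : ℕ × ℕ → G × G → ℝ} (hA : GoodA N S A) : GoodA N S (TT q g p r i m A) := by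
  intro c
  have hQ : (0 : ℝ) < Qr q i m := by exact_mod_cast Qr_pos hq i m
  rw [TransA_TT_eq]
  constructor
  · refine (nrm_weighted (range (Qr q i m)) (fun _ => 1 / (Qr q i m : ℝ)) ?_ ?_ _).trans ?_
    · intro _ _; positivity
    · rw [sum_const, card_range, nsmul_eq_mul]
      field_simp
    · calc ∑ u ∈ range (Qr q i m), 1 / (Qr q i m : ℝ) * nrm (tr (hw q g i m (p * u + c.1),
            hw q g i m (r * u + c.2)) (A ((p * u + c.1) / Qr q i m, (r * u + c.2) / Qr q i m)))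
          ≤ ∑ u ∈ range (Qr q i m), 1 / (Qr q i m : ℝ) * S := by
            apply sum_le_sum
            intro u _
            apply mul_le_mul_of_nonneg_left _ (by positivity)
            rw [nrm_tr]
            exact (hA _).1
        _ = S := by
            rw [sum_const, card_range, nsmul_eq_mul]
            field_simp
  · apply Bal_sum
    intro u _
    apply Bal_tr _ (hA _).2
    apply TransA_prod_norm
    exact hN _ (hw_mem_Gam hq le_rfl le_rfl _)

theorem TT_nrm_le (hq : Rad B q) (i m : ℕ) {S : ℝ} {A : ℕ × ℕ → G × G → ℝ}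
    (hA : ∀ c, nrm (A c) ≤ S) (c : ℕ × ℕ) : nrm (TT q g p r i m A c) ≤ S := by
  have hQ : (0 : ℝ) < Qr q i m := by exact_mod_cast Qr_pos hq i m
  rw [TransA_TT_eq]
  refine (nrm_weighted (range (Qr q i m)) (fun _ => 1 / (Qr q i m : ℝ)) ?_ ?_ _).trans ?_
  · intro _ _; positivity
  · rw [sum_const, card_range, nsmul_eq_mul]
    field_simp
  · calc ∑ u ∈ range (Qr q i m), 1 / (Qr q i m : ℝ) * nrm (tr (hw q g i m (p * u + c.1),
          hw q g i m (r * u + c.2)) (A ((p * u + c.1) / Qr q i m, (r * u + c.2) / Qr q i m)))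
        ≤ ∑ u ∈ range (Qr q i m), 1 / (Qr q i m : ℝ) * S := by
          apply sum_le_sum
          intro u _
          apply mul_le_mul_of_nonneg_left _ (by positivity)
          rw [nrm_tr]
          exact hA _
      _ = S := by
          rw [sum_const, card_range, nsmul_eq_mul]
          field_simp

end Pool.Agent.Lib.MP_3e612f_nt.PS
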