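import Pool.Agent.Lib.MP_3e612f_nt.PB.Defs

/-!
# Moebius orthogonality for non-uniform group valued digit products, uniformly in shifts: definitions

Blueprint: /team-store/h31_PS_BLUEPRINT.md
-/

set_option autoImplicit false

namespace Pool.Agent.Lib.MP_3e612f_nt.PS

open Finset
open Pool.Agent.Lib.MP_3e612f_nt.PB

/-- the carries (upper parts) after `m` digits `u` at the positions `i, …, i+m-1`, started with the
upper parts `c` -/
def cu (q : ℕ → ℕ) (p r i m : ℕ) (c : ℕ × ℕ) (u : ℕ) : ℕ × ℕ :=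
  ((p * u + c.1) / Qr q i m, (r * u + c.2) / Qr q i m)

section
variable {G : Type} [Group G]

/-- the pair of digit products over the positions `i, …, i+m-1` -/
def wu (q : ℕ → ℕ) (g : ℕ → ℕ → G) (p r i m : ℕ) (c : ℕ × ℕ) (u : ℕ) : G × G :=
  (hw q g i m (p * u + c.1), hw q g i m (r * u + c.2))

/-- the local group of the window `[l,l+W)` with initial upper parts `c` -/
def Loc (q : ℕ → ℕ) (g : ℕ → ℕ → G) (p r l W : ℕ) (c : ℕ × ℕ) : Subgroup (G × G) :=
  Subgroup.closure {x | ∃ v v' : ℕ, v < Qr q l W ∧ v' < Qr q l W ∧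
    cu q p r l W c v = cu q p r l W c v' ∧
    x = wu q g p r l W c v * (wu q g p r l W c v')⁻¹}

/-- the basic defects of linearity at the position `j` -/
def Yj (q : ℕ → ℕ) (g : ℕ → ℕ → G) (j : ℕ) : Set G :=
  {x | (∃ d, d + 1 < q j ∧ x = (g j 1)⁻¹ * g j (d + 1) * (g j d)⁻¹) ∨
    x = (g j 1)⁻¹ * g (j + 1) 1 * (g j (q j - 1))⁻¹}

/-- bounded and balanced families (all upper parts) -/
def GoodA [Fintype G] (N : Subgroup G) (S : ℝ) (A : ℕ × ℕ → G × G → ℝ) : Prop :=
  ∀ c : ℕ × ℕ, nrm (A c) ≤ S ∧ Bal ((⊥ : Subgroup G).prod N) (A c)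

end

/-- the contraction factor -/
noncomputable def rho (G : Type) [Fintype G] (B k : ℕ) : ℝ :=
  1 - 2 / (4 * (Fintype.card (G × G) : ℝ) ^ 2 * (B : ℝ) ^ (3 * k + 1) + 2)

end Pool.Agent.Lib.MP_3e612f_nt.PS
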