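import Pool.Agent.Lib.MP_3e612f_nt.PS.Mart
import Pool.Agent.Lib.MP_3e612f_nt.PS.Chain

/-! The gain at one spaced segment (blueprint, section Gain). -/

set_option autoImplicit false

namespace Pool.Agent.Lib.MP_3e612f_nt.PS

open Finset
open Pool.Agent.Lib.MP_3e612f_nt.PB

variable {G : Type} [Group G] [Fintype G] {q : ℕ → ℕ} {g : ℕ → ℕ → G} {B : ℕ} {p r k : ℕ}

theorem rho_nonneg (G : Type) [Group G] [Fintype G] (B k : ℕ) : 0 ≤ rho G B k := by
  unfold rho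
  have h : (0 : ℝ) ≤ 4 * (Fintype.card (G × G) : ℝ) ^ 2 * (B : ℝ) ^ (3 * k + 1) := by positivity
  rw [sub_nonneg, div_le_one (by linarith)]
  linarith

theorem rho_lt_one (G : Type) [Group G] [Fintype G] (B k : ℕ) : rho G B k < 1 := by
  unfold rho
  have h : (0 : ℝ) ≤ 4 * (Fintype.card (G × G) : ℝ) ^ 2 * (B : ℝ) ^ (3 * k + 1) := by positivity
  have h2 : 0 < 2 / (4 * (Fintype.card (G × G) : ℝ) ^ 2 * (B : ℝ) ^ (3 * k + 1) + 2) := by
    positivity
  linarith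

/-- all elements of `1 × Nlin s t` move the function `TT … c` by little -/
theorem near_inv (hq : Rad B q) (hg : Neu g) (hp : 2 ≤ p) (hpr : p + 2 ≤ r) (hr : r.Prime)
    (hrq : ∀ j, ¬ r ∣ q j) (hk : p * r < 2 ^ k) (hG : Fintype.card G < r) {s t : ℕ}
    (hs : 2 * k ≤ s) (hst : s ≤ t) {S : ℝ} {A : ℕ × ℕ → G × G → ℝ} (hA : ∀ c, nrm (A c) ≤ S)
    (c : ℕ × ℕ) {y : G} (hy : y ∈ Nlin q g s t) :
    ((1 : G), y) ∈ Subgroup.closure {x : G × G |
      nrm (fun z => TT q g p r (s - 2 * k) (t - s + 5 * k) A c (z * x) -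
        TT q g p r (s - 2 * k) (t - s + 5 * k) A c z) ≤
      4 * ((B : ℝ) ^ (3 * k + 1) *
        (S - nrm (TT q g p r (s - 2 * k) (t - s + 5 * k) A c)))} := by
  obtain ⟨i, hi⟩ : ∃ i, i = s - 2 * k := ⟨_, rfl⟩
  obtain ⟨M, hM⟩ : ∃ M, M = t - s + 5 * k := ⟨_, rfl⟩
  rw [← hi, ← hM]
  have hsi : s = i + 2 * k := by omega
  have hti : i + M = t + 3 * k := by omega
  set e : ℝ := (B : ℝ) ^ (3 * k + 1) * (S - nrm (TT q g p r i M A c)) with he
  set Sinv : Set (G × G) := {x : G × G |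
      nrm (fun z => TT q g p r i M A c (z * x) - TT q g p r i M A c z) ≤ 4 * e} with hSinv
  -- the prefixes
  have hgp : ∀ l, ∃ u₀, i ≤ l → l < t → u₀ < Qr q i (l - i) ∧ ∀ W' ≤ 3 * k + 1,
      ∀ v < Qr q l W', nrm (fun z => TT q g p r (l + W') (M - (l - i) - W') A
          (cu q p r l W' (cu q p r i (l - i) c u₀) v)
          (z * (wu q g p r i (l - i) c u₀ * wu q g p r l W' (cu q p r i (l - i) c u₀) v)) -
        TT q g p r i M A c z) ≤ e := by
    intro l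
    by_cases h : i ≤ l ∧ l < t
    · obtain ⟨u₀, h1, h2⟩ := good_prefix (q := q) (g := g) (p := p) (r := r) hq hA i (l - i)
        (3 * k + 1) M (by omega) c
      refine ⟨u₀, fun _ _ => ⟨h1, ?_⟩⟩
      have e1 : i + (l - i) = l := by omega
      rw [e1] at h2
      exact h2
    · exact ⟨0, fun h1 h2 => absurd ⟨h1, h2⟩ h⟩
  choose u hu using hgp
  have hmem : ∀ x ∈ Sinv, x ∈ Subgroup.closure Sinv := fun x hx => Subgroup.subset_closure hx
  refine chain hq hg hp hpr hr hrq hk hG (Subgroup.closure Sinv)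
    (fun l => wu q g p r i (l - i) c (u l)) (fun l => cu q p r i (l - i) c (u l))
    (i := i) (s := s) (t := t) (by omega) ?_ ?_ ?_ hy
  · show (wu q g p r i (i - i) c (u i)).2 = 1
    rw [Nat.sub_self, wu_zero]
    rfl
  · intro l hil hlt x hx
    obtain ⟨_, h2⟩ := hu l hil hlt
    have h3 := h2 (3 * k + 1) le_rfl
    have h4 : Loc q g p r l (3 * k + 1) (cu q p r i (l - i) c (u l)) ≤
        (Subgroup.closure Sinv).comap
          (MulAut.conj (wu q g p r i (l - i) c (u l))).toMonoidHom := by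
      unfold Loc
      rw [Subgroup.closure_le]
      rintro x ⟨v, v', hv, hv', hcu, rfl⟩
      show (wu q g p r i (l - i) c (u l)) * _ * (wu q g p r i (l - i) c (u l))⁻¹ ∈
        Subgroup.closure Sinv
      apply hmem
      have h5 := h3 v hv
      have h6 := h3 v' hv'
      rw [← hcu] at h6
      have h7 := two_approx h5 h6
      rw [hSinv]
      show nrm _ ≤ 4 * e
      refine le_trans (le_of_eq ?_) h7
      congr 1
      funext z
      congr 2
      group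
    exact h4 hx
  · intro l hil hlt
    obtain ⟨hu1, h2⟩ := hu l hil (by omega)
    obtain ⟨hu1', h2'⟩ := hu (l + 1) (by omega) hlt
    obtain ⟨m, hm⟩ : ∃ m, m = l - i := ⟨_, rfl⟩
    have hm1 : l + 1 - i = m + 1 := by omega
    have hl : l = i + m := by omega
    have hpr2 : p + r ≤ p * r := by nlinarith
    have hQ : p + r < Qr q (l + 1) k :=
      lt_of_le_of_lt hpr2 (lt_of_lt_of_le hk (two_pow_le_Qr hq (l + 1) k))
    obtain ⟨ω, hω, hω1, hω2⟩ := exists_merge (c.1 / Qr q i (m + 1)) (c.2 / Qr q i (m + 1)) hQ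
    have hQ1 : Qr q l (1 + k) = Qr q l 1 * Qr q (l + 1) k := Qr_add q l 1 k
    have hv1 : 0 + Qr q l 1 * ω < Qr q l (1 + k) := by
      rw [hQ1, Nat.zero_add]
      exact Nat.mul_lt_mul_of_pos_left hω (Qr_pos hq l 1)
    -- the upper parts after the digit `0`
    have hcl : cu q p r l 1 (cu q p r i m c (u l)) 0 = cu q p r i (m + 1) c (u l) := by
      have h := cu_add hq p r i m 1 c (u l) 0
      rw [Nat.mul_zero, Nat.add_zero, ← hl] at h
      exact h.symm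
    have hr1 := cu_range hq p r i (m + 1) c
      (lt_of_lt_of_le (hm ▸ hu1) (Qr_mono hq i (Nat.le_succ m)))
    have hr2 := cu_range hq p r i (m + 1) c (hm1 ▸ hu1')
    have hcu1 : cu q p r l (1 + k) (cu q p r i m c (u l)) (0 + Qr q l 1 * ω) =
        cu q p r (l + 1) k (cu q p r i (m + 1) c (u (l + 1))) ω := by
      rw [cu_add hq, hcl]
      unfold cu at hr1 hr2 ⊢
      simp only at hr1 hr2 ⊢
      rw [Prod.mk.injEq]
      constructor
      · rw [hω1 _ hr1.1.1 hr1.1.2, hω1 _ hr2.1.1 hr2.1.2]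
      · rw [hω2 _ hr1.2.1 hr1.2.2, hω2 _ hr2.2.1 hr2.2.2]
    have h5 := h2 (1 + k) (by omega) (0 + Qr q l 1 * ω) hv1
    have h6 := h2' k (by omega) ω hω
    rw [← hm] at h5
    rw [hm1] at h6
    rw [hcu1] at h5
    have e1 : l + (1 + k) = l + 1 + k := by omega
    have e2 : M - m - (1 + k) = M - (m + 1) - k := by omega
    rw [e1, e2] at h5
    have h7 := two_approx h5 h6
    have e3 : k + 1 = 1 + k := by omega
    refine ⟨wu q g p r l (1 + k) (cu q p r i m c (u l)) (0 + Qr q l 1 * ω),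
      wu q g p r (l + 1) k (cu q p r i (m + 1) c (u (l + 1))) ω,
      (r * (0 + Qr q l 1 * ω) + (cu q p r i m c (u l)).2) % Qr q l (k + 1),
      (r * ω + (cu q p r i (m + 1) c (u (l + 1))).2) % Qr q (l + 1) k,
      Nat.mod_lt _ (Qr_pos hq _ _), Nat.mod_lt _ (Qr_pos hq _ _), ?_, ?_, ?_⟩
    · rw [hw_mod hq, e3]
      rfl
    · rw [hw_mod hq]
      rfl
    · apply hmem
      rw [hSinv]
      show nrm _ ≤ 4 * e
      refine le_trans (le_of_eq ?_) h7
      rw [← hm, hm1]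

theorem TT_gainA (hq : Rad B q) (hg : Neu g) (hp : 2 ≤ p) (hpr : p + 2 ≤ r) (hr : r.Prime)
    (hrq : ∀ j, ¬ r ∣ q j) (hk : p * r < 2 ^ k) (hG : Fintype.card G < r)
    {N : Subgroup G} {s t : ℕ} (hs : 2 * k ≤ s) (hst : s ≤ t)
    (hN : ∀ γ ∈ Gam q g (s - 2 * k) (t + 3 * k), ∀ y, y ∈ N ↔ γ * y * γ⁻¹ ∈ N)
    (hNs : N ≤ Nlin q g s t) {S : ℝ} {A : ℕ × ℕ → G × G → ℝ} (hA : GoodA N S A) :
    GoodA N (rho G B k * S) (TT q g p r (s - 2 * k) (t - s + 5 * k) A) := by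
  have e1 : s - 2 * k + (t - s + 5 * k) = t + 3 * k := by omega
  have hgood : GoodA N S (TT q g p r (s - 2 * k) (t - s + 5 * k) A) :=
    TT_goodA hq (by rw [e1]; exact hN) hA
  intro c
  refine ⟨?_, (hgood c).2⟩
  obtain ⟨x, hx, h1⟩ := Bal_exists (hgood c).2
  have hnS := (hgood c).1
  have hx1 : x.1 = 1 := Subgroup.mem_bot.1 (Subgroup.mem_prod.1 hx).1
  have hx2 : x.2 ∈ Nlin q g s t := hNs (Subgroup.mem_prod.1 hx).2
  have hni := near_inv hq hg hp hpr hr hrq hk hG hs hst (fun c => (hA c).1) c hx2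
  have hxe : ((1 : G), x.2) = x := by rw [← hx1]
  rw [hxe] at hni
  set Θ := TT q g p r (s - 2 * k) (t - s + 5 * k) A c with hΘ
  have hτ : 0 ≤ 4 * ((B : ℝ) ^ (3 * k + 1) * (S - nrm Θ)) := by
    have : 0 ≤ S - nrm Θ := by linarith
    positivity
  have h2 := word_bound hτ (fun x hx => hx) hni
  have h3 : 2 * nrm Θ ≤ (Fintype.card (G × G) : ℝ) ^ 2 *
      (4 * ((B : ℝ) ^ (3 * k + 1) * (S - nrm Θ))) := le_trans h1 h2
  unfold rho
  have hC : (0 : ℝ) ≤ 4 * (Fintype.card (G × G) : ℝ) ^ 2 * (B : ℝ) ^ (3 * k + 1) := by positivity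
  set C : ℝ := 4 * (Fintype.card (G × G) : ℝ) ^ 2 * (B : ℝ) ^ (3 * k + 1) with hCdef
  have h4 : (Fintype.card (G × G) : ℝ) ^ 2 * (4 * ((B : ℝ) ^ (3 * k + 1) * (S - nrm Θ))) =
      C * (S - nrm Θ) := by rw [hCdef]; ring
  rw [h4] at h3
  have h5 : (1 - 2 / (C + 2)) * S = C * S / (C + 2) := by
    field_simp
    ring
  rw [h5, le_div_iff₀ (by linarith)]
  nlinarith

end Pool.Agent.Lib.MP_3e612f_nt.PS
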