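import Pool.Agent.Lib.MP_3e612f_nt.PS.LocP

/-! The local group contains the defects of linearity (blueprint, section LocI). -/

set_option autoImplicit false

namespace Pool.Agent.Lib.MP_3e612f_nt.PS

open Finset
open Pool.Agent.Lib.MP_3e612f_nt.PB

variable {G : Type} [Group G] {q : ℕ → ℕ} {g : ℕ → ℕ → G} {B : ℕ} {p r k : ℕ}

theorem LocI_Qr_two (q : ℕ → ℕ) (j : ℕ) : Qr q j 2 = q j * q (j + 1) := by
  rw [Qr_succ, Qr_succ, Qr_zero, one_mul, add_zero]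

theorem LocI_hw_two (q : ℕ → ℕ) (g : ℕ → ℕ → G) (j n : ℕ) :
    hw q g j 2 n = g j (n % q j) * g (j + 1) (n / q j % q (j + 1)) := by
  show g j (n % q j) * (g (j + 1) (n / q j % q (j + 1)) * 1) = _
  rw [mul_one]

theorem LocI_div_succ {m Q : ℕ} (h : m % Q + 1 < Q) : (m + 1) / Q = m / Q := by
  have h1 := Nat.div_add_mod m Q
  have hQ : 0 < Q := by omega
  rw [Nat.div_eq_iff hQ]
  have h2 : m / Q * Q = Q * (m / Q) := mul_comm _ _
  omega

theorem LocI_mod_succ {m Q : ℕ} (h : m % Q + 1 < Q) : (m + 1) % Q = m % Q + 1 := by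
  have h1 := Nat.div_add_mod m Q
  have h2 := Nat.div_add_mod (m + 1) Q
  rw [LocI_div_succ h] at h2
  omega

/-- the element of the local group given by a residue -/
theorem LocI_elt (hq : Rad B q) (hr : r.Prime) (hrq : ∀ j, ¬ r ∣ q j) {l W : ℕ}
    (hW : k + 2 ≤ W) (c : ℕ × ℕ) {v₀ : ℕ} (hv₀ : v₀ + 1 < Qr q l k)
    (h1 : (p * (v₀ + 1) + c.1) / Qr q l k = (p * v₀ + c.1) / Qr q l k)
    (h2 : (r * (v₀ + 1) + c.2) / Qr q l k = (r * v₀ + c.2) / Qr q l k + 1)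
    {a : ℕ} (ha : a + 1 < Qr q (l + k) 2) :
    (hw q g l k (p * v₀ + c.1) * (hw q g l k (p * (v₀ + 1) + c.1))⁻¹,
      hw q g l k (r * v₀ + c.2) * (hw q g (l + k) 2 a * (hw q g (l + k) 2 (a + 1))⁻¹) *
        (hw q g l k (r * (v₀ + 1) + c.2))⁻¹) ∈ Loc q g p r l W c := by
  obtain ⟨cp, hcp⟩ : ∃ cp, cp = (p * v₀ + c.1) / Qr q l k := ⟨_, rfl⟩
  obtain ⟨cr, hcr⟩ : ∃ cr, cr = (r * v₀ + c.2) / Qr q l k := ⟨_, rfl⟩
  obtain ⟨n, rfl⟩ : ∃ n, W = k + (2 + n) := ⟨W - k - 2, by omega⟩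
  have hQ2 := Qr_pos hq (l + k) 2
  have hQn := Qr_pos hq (l + k + 2) n
  have hQk := Qr_pos hq l k
  obtain ⟨v₁, hv₁, hm⟩ := exists_residue (r := r) hQ2 (Qr_coprime hr hrq _ _) cr
    (a := a) (by omega)
  obtain ⟨m, hmd⟩ : ∃ m, m = r * v₁ + cr := ⟨_, rfl⟩
  rw [← hmd] at hm
  have hQ' : Qr q (l + k) (2 + n) = Qr q (l + k) 2 * Qr q (l + k + 2) n := Qr_add _ _ _ _
  have hdiv2 : (m + 1) / Qr q (l + k) 2 = m / Qr q (l + k) 2 := LocI_div_succ (by omega)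
  have hmod2 : (m + 1) % Qr q (l + k) 2 = a + 1 := by
    rw [LocI_mod_succ (by omega), hm]
  have hdiv' : (m + 1) / Qr q (l + k) (2 + n) = m / Qr q (l + k) (2 + n) := by
    rw [hQ', ← Nat.div_div_eq_div_mul, ← Nat.div_div_eq_div_mul, hdiv2]
  have hv₁' : v₁ < Qr q (l + k) (2 + n) := by
    rw [hQ']
    exact lt_of_lt_of_le hv₁ (Nat.le_mul_of_pos_right _ hQn)
  have hlt : ∀ w, w < Qr q l k → w + Qr q l k * v₁ < Qr q l (k + (2 + n)) := by
    intro w hw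
    rw [Qr_add]
    calc w + Qr q l k * v₁ < Qr q l k + Qr q l k * v₁ := by omega
      _ = Qr q l k * (v₁ + 1) := by ring
      _ ≤ _ := Nat.mul_le_mul_left _ hv₁'
  have hcu0 : cu q p r l k c v₀ = (cp, cr) := by
    unfold cu
    rw [hcp, hcr]
  have hcu1 : cu q p r l k c (v₀ + 1) = (cp, cr + 1) := by
    unfold cu
    rw [h1, h2, hcp, hcr]
  have hcu : cu q p r l (k + (2 + n)) c (v₀ + Qr q l k * v₁) =
      cu q p r l (k + (2 + n)) c (v₀ + 1 + Qr q l k * v₁) := by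
    rw [cu_add hq, cu_add hq, hcu0, hcu1]
    unfold cu
    simp only
    have e : r * v₁ + (cr + 1) = m + 1 := by omega
    rw [e, ← hmd, hdiv']
  have hsplit : ∀ x, hw q g (l + k) (2 + n) x =
      hw q g (l + k) 2 x * hw q g (l + k + 2) n (x / Qr q (l + k) 2) := fun x =>
    hw_add q g (l + k) 2 n x
  have hm2 : hw q g (l + k) 2 m = hw q g (l + k) 2 a := by
    rw [← hw_mod hq (l + k) 2 m, hm]
  have hm3 : hw q g (l + k) 2 (m + 1) = hw q g (l + k) 2 (a + 1) := by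
    rw [← hw_mod hq (l + k) 2 (m + 1), hmod2]
  apply Subgroup.subset_closure
  refine ⟨v₀ + Qr q l k * v₁, v₀ + 1 + Qr q l k * v₁, hlt _ (by omega), hlt _ hv₀, hcu, ?_⟩
  rw [wu_add hq, wu_add hq, hcu0, hcu1]
  unfold wu
  simp only
  have e : r * v₁ + (cr + 1) = m + 1 := by omega
  rw [e, ← hmd, hsplit m, hsplit (m + 1), hdiv2, hm2, hm3]
  ext
  · show _ = (hw q g l k (p * v₀ + c.1) * hw q g (l + k) (2 + n) (p * v₁ + cp)) *
      (hw q g l k (p * (v₀ + 1) + c.1) * hw q g (l + k) (2 + n) (p * v₁ + cp))⁻¹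
    simp only
    group
  · show _ = (hw q g l k (r * v₀ + c.2) * (hw q g (l + k) 2 a *
      hw q g (l + k + 2) n (m / Qr q (l + k) 2))) *
      (hw q g l k (r * (v₀ + 1) + c.2) * (hw q g (l + k) 2 (a + 1) *
      hw q g (l + k + 2) n (m / Qr q (l + k) 2)))⁻¹
    simp only
    group

/-- conjugates of the defects -/
theorem loc_defect (hq : Rad B q) (hg : Neu g) (hp : 2 ≤ p) (hpr : p + 2 ≤ r) (hr : r.Prime)
    (hrq : ∀ j, ¬ r ∣ q j) (hk : p * r < 2 ^ k) {l W : ℕ} (hW : k + 2 ≤ W) (c : ℕ × ℕ) {y : G}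
    (hy : y ∈ Yj q g (l + k)) :
    ∃ x, x < Qr q l k ∧
      ((1 : G), hw q g l k x * y * (hw q g l k x)⁻¹) ∈ Loc q g p r l W c := by
  have hX : r < Qr q l k := by
    have h1 : r ≤ p * r := Nat.le_mul_of_pos_left _ (by omega)
    exact lt_of_lt_of_le (lt_of_le_of_lt h1 hk) (two_pow_le_Qr hq l k)
  obtain ⟨v₀, hv₀, h1, h2⟩ := exists_jump c.1 c.2 hpr hX
  refine ⟨(r * v₀ + c.2) % Qr q l k, Nat.mod_lt _ (Qr_pos hq l k), ?_⟩
  rw [hw_mod hq]
  have hqj := (hq (l + k)).1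
  have hqj1 := (hq (l + k + 1)).1
  have hQ2 : Qr q (l + k) 2 = q (l + k) * q (l + k + 1) := LocI_Qr_two q (l + k)
  have hQ2' : 2 * q (l + k) ≤ Qr q (l + k) 2 := by
    rw [hQ2, mul_comm 2]
    exact Nat.mul_le_mul_left _ hqj1
  have e0 := LocI_elt (g := g) hq hr hrq hW c hv₀ h1 h2 (a := 0) (by omega)
  have g0 : hw q g (l + k) 2 0 = 1 := hw_zero hg _ _
  have g1 : hw q g (l + k) 2 (0 + 1) = g (l + k) 1 := by
    rw [LocI_hw_two, zero_add, Nat.mod_eq_of_lt (by omega : 1 < q (l + k)),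
      Nat.div_eq_of_lt (by omega : 1 < q (l + k)), Nat.zero_mod, hg, mul_one]
  rw [g0, g1, one_mul] at e0
  have key : ∀ a : ℕ, a + 1 < Qr q (l + k) 2 → ∀ u v : G, hw q g (l + k) 2 a = u →
      hw q g (l + k) 2 (a + 1) = v → ((1 : G), hw q g l k (r * v₀ + c.2) *
        ((g (l + k) 1)⁻¹ * v * u⁻¹) * (hw q g l k (r * v₀ + c.2))⁻¹) ∈ Loc q g p r l W c := by
    intro a ha u v hu hv
    have e1 := LocI_elt (g := g) hq hr hrq hW c hv₀ h1 h2 ha
    rw [hu, hv] at e1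
    have e2 := Subgroup.mul_mem _ e0 (Subgroup.inv_mem _ e1)
    convert e2 using 1
    ext
    · show (1 : G) = (hw q g l k (p * v₀ + c.1) * (hw q g l k (p * (v₀ + 1) + c.1))⁻¹) *
        (hw q g l k (p * v₀ + c.1) * (hw q g l k (p * (v₀ + 1) + c.1))⁻¹)⁻¹
      rw [mul_inv_cancel]
    · show hw q g l k (r * v₀ + c.2) * ((g (l + k) 1)⁻¹ * v * u⁻¹) *
        (hw q g l k (r * v₀ + c.2))⁻¹ =
        (hw q g l k (r * v₀ + c.2) * (g (l + k) 1)⁻¹ * (hw q g l k (r * (v₀ + 1) + c.2))⁻¹) *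
        (hw q g l k (r * v₀ + c.2) * (u * v⁻¹) * (hw q g l k (r * (v₀ + 1) + c.2))⁻¹)⁻¹
      group
  rcases hy with ⟨d, hd, rfl⟩ | rfl
  · refine key d (by omega) _ _ ?_ ?_
    · rw [LocI_hw_two, Nat.mod_eq_of_lt (by omega : d < q (l + k)),
        Nat.div_eq_of_lt (by omega : d < q (l + k)), Nat.zero_mod, hg, mul_one]
    · rw [LocI_hw_two, Nat.mod_eq_of_lt hd, Nat.div_eq_of_lt hd, Nat.zero_mod, hg, mul_one]
  · refine key (q (l + k) - 1) (by omega) _ _ ?_ ?_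
    · rw [LocI_hw_two, Nat.mod_eq_of_lt (by omega : q (l + k) - 1 < q (l + k)),
        Nat.div_eq_of_lt (by omega : q (l + k) - 1 < q (l + k)), Nat.zero_mod, hg, mul_one]
    · have e : q (l + k) - 1 + 1 = q (l + k) := by omega
      rw [e, LocI_hw_two, Nat.mod_self, Nat.div_self (by omega),
        Nat.mod_eq_of_lt (by omega : 1 < q (l + k + 1)), hg, one_mul]

/-- summary -/
theorem loc_all [Fintype G] (hq : Rad B q) (hg : Neu g) (hp : 2 ≤ p) (hpr : p + 2 ≤ r)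
    (hr : r.Prime) (hrq : ∀ j, ¬ r ∣ q j) (hk : p * r < 2 ^ k) (hG : Fintype.card G < r) (l : ℕ)
    (c : ℕ × ℕ) :
    (∀ x, x < Qr q l (k + 1) → ∃ y : G, (y, hw q g l (k + 1) x) ∈ Loc q g p r l (3 * k + 1) c) ∧
      ∀ y ∈ Yj q g (l + k), ((1 : G), y) ∈ Loc q g p r l (3 * k + 1) c := by
  have hk1 : 1 ≤ k := by
    rcases Nat.eq_zero_or_pos k with h | h
    · rw [h, pow_zero] at hk
      have : 0 < p * r := Nat.mul_pos (by omega) hr.pos
      omega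
    · exact h
  have hproj : ∀ x, x < Qr q l (k + 1) →
      ∃ y : G, (y, hw q g l (k + 1) x) ∈ Loc q g p r l (3 * k + 1) c := by
    intro x hx
    have h := loc_proj hq hg hp hpr hr hrq hk hG (a := k + 1) (by omega) c hx
    have e : k + 1 + 2 * k = 3 * k + 1 := by omega
    rw [e] at h
    exact h
  refine ⟨hproj, fun y hy => ?_⟩
  obtain ⟨x, hx, hmem⟩ := loc_defect hq hg hp hpr hr hrq hk (W := 3 * k + 1) (by omega) c hy
  have hx' : x < Qr q l (k + 1) := lt_of_lt_of_le hx (Qr_mono hq l (by omega))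
  obtain ⟨y', hy'⟩ := hproj x hx'
  rw [hw_extend hq hg l k 1 hx] at hy'
  have h := Subgroup.mul_mem _ (Subgroup.mul_mem _ (Subgroup.inv_mem _ hy') hmem) hy'
  convert h using 1
  ext
  · show (1 : G) = y'⁻¹ * 1 * y'
    group
  · show y = (hw q g l k x)⁻¹ * (hw q g l k x * y * (hw q g l k x)⁻¹) * hw q g l k x
    group

end Pool.Agent.Lib.MP_3e612f_nt.PS
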