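import Pool.Agent.Lib.MP_3e612f_nt.PS.Arith
import Pool.Agent.Lib.MP_3e612f_nt.PS.Cu

/-! The second projection of the local group contains all digit products of the lower part of the
window (blueprint, section LocP). -/

set_option autoImplicit false

namespace Pool.Agent.Lib.MP_3e612f_nt.PS

open Finset
open Pool.Agent.Lib.MP_3e612f_nt.PB

variable {G : Type} [Group G] [Fintype G] {q : ℕ → ℕ} {g : ℕ → ℕ → G} {B : ℕ} {p r k : ℕ}

omit [Fintype G] in
private theorem LocP_mem (hq : Rad B q) (hp : 2 ≤ p) (hpr : p + 2 ≤ r) (hr : r.Prime)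
    (hrq : ∀ j, ¬ r ∣ q j) (hk : p * r < 2 ^ k) {l a : ℕ} (c : ℕ × ℕ) {n₁ n₂ : ℕ}
    (h1 : n₁ < Qr q l (a + k)) (h2 : n₂ < Qr q l (a + k)) (hmod : n₁ % r = n₂ % r)
    (hside : (n₁ < c.2 % Qr q l (a + k) ∧ n₂ < c.2 % Qr q l (a + k)) ∨
      (c.2 % Qr q l (a + k) ≤ n₁ ∧ c.2 % Qr q l (a + k) ≤ n₂)) :
    ∃ y : G, (y, hw q g l (a + k) n₁ * (hw q g l (a + k) n₂)⁻¹) ∈
      Loc q g p r l (a + 2 * k) c := by
  set M := Qr q l (a + k) with hMdef
  set Q := Qr q (l + (a + k)) k with hQdef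
  have hM0 : 0 < M := Qr_pos hq _ _
  have hQ2 : 2 ^ k ≤ Q := two_pow_le_Qr hq _ _
  have hpQ : p + r < Q := by
    have h3 : p + r ≤ p * r := by nlinarith
    omega
  obtain ⟨ω, hω, hω1, hω2⟩ := exists_merge (p := p) (r := r) (Q := Q) (c.1 / M) (c.2 / M) hpQ
  obtain ⟨v₁, hv1, hn1⟩ := exists_residue hM0 (Qr_coprime hr hrq l (a + k)) c.2 h1
  obtain ⟨v₂, hv2, hn2⟩ := exists_residue hM0 (Qr_coprime hr hrq l (a + k)) c.2 h2
  have hcar : (r * v₁ + c.2) / M = (r * v₂ + c.2) / M := by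
    apply carry_eq hr (Qr_coprime hr hrq l (a + k)) hv1 hv2
    · rw [hn1, hn2, hmod]
    · rw [hn1, hn2]
      exact hside
  have hW : a + 2 * k = (a + k) + k := by ring
  have hlt : ∀ v, v < M → v + M * ω < Qr q l ((a + k) + k) := by
    intro v hv
    rw [Qr_add]
    calc v + M * ω < M + M * ω := by omega
      _ = M * (ω + 1) := by ring
      _ ≤ M * Q := Nat.mul_le_mul_left _ hω
  have hcu : ∀ v, v < M → cu q p r l ((a + k) + k) c (v + M * ω) =
      ((p * ω + c.1 / M) / Q, (r * ω + c.2 / M) / Q) := by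
    intro v hv
    rw [hMdef, cu_add hq]
    obtain ⟨⟨e1, e2⟩, e3, e4⟩ := cu_range (c := c) hq p r l (a + k) hv
    have e5 := hω1 _ e1 e2
    have e6 := hω2 _ e3 e4
    rw [cu]
    rw [← e5, ← e6]
  have hwu : ∀ v, (wu q g p r l ((a + k) + k) c (v + M * ω)).2 =
      hw q g l (a + k) ((r * v + c.2) % M) * hw q g (l + (a + k)) k (r * ω + (r * v + c.2) / M) := by
    intro v
    rw [hMdef, wu_add hq]
    rw [hw_mod hq]
    rfl
  refine ⟨(wu q g p r l ((a + k) + k) c (v₁ + M * ω)).1 *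
    ((wu q g p r l ((a + k) + k) c (v₂ + M * ω)).1)⁻¹, ?_⟩
  rw [hW]
  apply Subgroup.subset_closure
  refine ⟨v₁ + M * ω, v₂ + M * ω, hlt _ hv1, hlt _ hv2, ?_, ?_⟩
  · rw [hcu _ hv1, hcu _ hv2]
  · apply Prod.ext
    · rfl
    · rw [Prod.snd_mul, Prod.snd_inv, hwu, hwu, hn1, hn2, hcar]
      group

/-- one step of the chain -/
theorem loc_step (hq : Rad B q) (hg : Neu g) (hp : 2 ≤ p) (hpr : p + 2 ≤ r) (hr : r.Prime)
    (hrq : ∀ j, ¬ r ∣ q j) (hk : p * r < 2 ^ k) (hG : Fintype.card G < r) {l a : ℕ}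
    (ha : k ≤ a) (c : ℕ × ℕ) :
    ∃ δ : ℕ, ¬ r ∣ δ ∧ ∀ a₁ a₂ : ℕ, a₁ < Qr q l a → a₂ < Qr q l a → a₂ % r = (a₁ + δ) % r →
      ∃ y : G, (y, hw q g l a a₁ * (hw q g l a a₂)⁻¹) ∈ Loc q g p r l (a + 2 * k) c := by
  set Qa := Qr q l a with hQa
  set Qb := Qr q (l + a) k with hQb
  set M := Qr q l (a + k) with hMdef
  have hMab : M = Qa * Qb := Qr_add q l a k
  have hQa0 : 0 < Qa := Qr_pos hq _ _
  have hQb0 : 0 < Qb := Qr_pos hq _ _
  have hM0 : 0 < M := Qr_pos hq _ _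
  have hQb2 : 2 ^ k ≤ Qb := two_pow_le_Qr hq _ _
  have h2r : 2 * r ≤ Qb := by
    have h3 : 2 * r ≤ p * r := Nat.mul_le_mul_right _ hp
    omega
  set c' := c.2 % M with hc'
  set cb := c' / Qa with hcb
  have hc'M : c' < M := Nat.mod_lt _ hM0
  -- the block of upper digits
  obtain ⟨β, hβ⟩ : ∃ β, (β + r ≤ cb) ∨ (cb + 1 ≤ β ∧ β + r ≤ Qb) := by
    by_cases h : r ≤ cb
    · exact ⟨0, Or.inl (by omega)⟩
    · exact ⟨cb + 1, Or.inr ⟨le_refl _, by omega⟩⟩
  have hcbQ : cb < Qb := by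
    rw [hcb, Nat.div_lt_iff_lt_mul hQa0, mul_comm]
    rw [← hMab]
    exact hc'M
  have hβQ : ∀ i, i < r → β + i < Qb := by
    intro i hi
    rcases hβ with h | ⟨h, h'⟩ <;> omega
  -- pigeonhole
  obtain ⟨i, j, hij, hval⟩ : ∃ i j : Fin r, i ≠ j ∧
      hw q g (l + a) k (β + i) = hw q g (l + a) k (β + j) := by
    obtain ⟨i, j, hij, h⟩ := Fintype.exists_ne_map_eq_of_card_lt
      (fun i : Fin r => hw q g (l + a) k (β + i)) (by simpa using hG)
    exact ⟨i, j, hij, h⟩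
  refine ⟨Qa * (i + (r - j)), ?_, ?_⟩
  · intro hdvd
    rcases (Nat.Prime.dvd_mul hr).1 hdvd with h | h
    · have hcop := Qr_coprime hr hrq l a
      have h1 : r ∣ Nat.gcd Qa r := Nat.dvd_gcd h (dvd_refl r)
      rw [hQa, Nat.Coprime.gcd_eq_one hcop] at h1
      exact hr.one_lt.ne' (Nat.dvd_one.1 h1)
    · have hi := i.2
      have hj := j.2
      have hne : (i : ℕ) ≠ j := fun h => hij (Fin.ext h)
      obtain ⟨m, hm⟩ := h
      have hm0 : m < 2 := by
        by_contra hcon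
        have : r * 2 ≤ r * m := Nat.mul_le_mul_left _ (by omega)
        omega
      interval_cases m
      · omega
      · omega
  · intro a₁ a₂ ha1 ha2 hmod
    have hsplit : ∀ x b, x < Qa → hw q g l (a + k) (x + Qa * b) = hw q g l a x * hw q g (l + a) k b := by
      intro x b hx
      exact hw_append hq l a k hx b
    have hlt : ∀ x b, x < Qa → b < Qb → x + Qa * b < M := by
      intro x b hx hb
      rw [hMab]
      calc x + Qa * b < Qa + Qa * b := by omega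
        _ = Qa * (b + 1) := by ring
        _ ≤ Qa * Qb := Nat.mul_le_mul_left _ hb
    have hlow : ∀ x b, x < Qa → b < cb → x + Qa * b < c' := by
      intro x b hx hb
      calc x + Qa * b < Qa + Qa * b := by omega
        _ = Qa * (b + 1) := by ring
        _ ≤ Qa * cb := Nat.mul_le_mul_left _ hb
        _ ≤ c' := Nat.mul_div_le _ _
    have hhigh : ∀ x b, cb + 1 ≤ b → c' ≤ x + Qa * b := by
      intro x b hb
      have h3 : c' < Qa * (cb + 1) := Nat.lt_mul_div_succ c' hQa0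
      have h4 : Qa * (cb + 1) ≤ Qa * b := Nat.mul_le_mul_left _ hb
      omega
    have hb1 := hβQ i i.2
    have hb2 := hβQ j j.2
    have key := LocP_mem (g := g) hq hp hpr hr hrq hk (l := l) (a := a) c
      (n₁ := a₁ + Qa * (β + i)) (n₂ := a₂ + Qa * (β + j)) (hlt _ _ ha1 hb1) (hlt _ _ ha2 hb2) ?_ ?_
    · obtain ⟨y, hy⟩ := key
      refine ⟨y, ?_⟩
      rw [hsplit _ _ ha1, hsplit _ _ ha2, hval] at hy
      have h5 : hw q g l a a₁ * hw q g (l + a) k (β + j) *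
          (hw q g l a a₂ * hw q g (l + a) k (β + j))⁻¹ = hw q g l a a₁ * (hw q g l a a₂)⁻¹ := by
        group
      rw [h5] at hy
      exact hy
    · -- congruence
      have h6 : a₂ + Qa * (β + j) ≡ (a₁ + Qa * (i + (r - j))) + Qa * (β + j) [MOD r] :=
        Nat.ModEq.add_right _ hmod
      have h7 : (a₁ + Qa * (i + (r - j))) + Qa * (β + j) = (a₁ + Qa * (β + i)) + r * Qa := by
        have h8 : (i : ℕ) + (r - j) + (β + j) = (β + i) + r := by
          have := j.2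
          omega
        calc (a₁ + Qa * (i + (r - j))) + Qa * (β + j) = a₁ + Qa * ((i : ℕ) + (r - j) + (β + j)) := by
              ring
          _ = a₁ + Qa * ((β + i) + r) := by rw [h8]
          _ = _ := by ring
      rw [h7] at h6
      have h9 : (a₁ + Qa * (β + i)) + r * Qa ≡ a₁ + Qa * (β + i) [MOD r] := by
        have : (a₁ + Qa * (β + i)) + r * Qa ≡ (a₁ + Qa * (β + i)) + 0 [MOD r] :=
          Nat.ModEq.add_left _ (Nat.modEq_zero_iff_dvd.2 (Dvd.intro _ rfl))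
        simpa using this
      exact (h6.trans h9).symm
    · rcases hβ with h | ⟨h, h'⟩
      · left
        exact ⟨hlow _ _ ha1 (by omega), hlow _ _ ha2 (by omega)⟩
      · right
        exact ⟨hhigh _ _ (by omega), hhigh _ _ (by omega)⟩

theorem loc_proj (hq : Rad B q) (hg : Neu g) (hp : 2 ≤ p) (hpr : p + 2 ≤ r) (hr : r.Prime)
    (hrq : ∀ j, ¬ r ∣ q j) (hk : p * r < 2 ^ k) (hG : Fintype.card G < r) {l a : ℕ}
    (ha : k ≤ a) (c : ℕ × ℕ) {x : ℕ} (hx : x < Qr q l a) :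
    ∃ y : G, (y, hw q g l a x) ∈ Loc q g p r l (a + 2 * k) c := by
  obtain ⟨δ, hδ, hstep⟩ := loc_step (g := g) hq hg hp hpr hr hrq hk hG (l := l) ha c
  have hrQ : r ≤ Qr q l a := by
    have h1 : 2 ^ k ≤ 2 ^ a := Nat.pow_le_pow_right (by norm_num) ha
    have h2 : 2 ^ a ≤ Qr q l a := two_pow_le_Qr hq _ _
    have h3 : 1 * r ≤ p * r := Nat.mul_le_mul_right _ (by omega)
    omega
  have hr0 : 0 < r := hr.pos
  have hchain : ∀ n, ∃ y : G, (y, hw q g l a x * (hw q g l a ((x + (n + 1) * δ) % r))⁻¹) ∈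
      Loc q g p r l (a + 2 * k) c := by
    intro n
    induction n with
    | zero =>
      apply hstep x _ hx (lt_of_lt_of_le (Nat.mod_lt _ hr0) hrQ)
      rw [Nat.mod_mod]
      simp
    | succ n ih =>
      obtain ⟨y, hy⟩ := ih
      obtain ⟨y', hy'⟩ := hstep ((x + (n + 1) * δ) % r) ((x + (n + 1 + 1) * δ) % r)
        (lt_of_lt_of_le (Nat.mod_lt _ hr0) hrQ) (lt_of_lt_of_le (Nat.mod_lt _ hr0) hrQ) (by
          rw [Nat.mod_mod, Nat.mod_add_mod]
          congr 1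
          ring)
      refine ⟨y * y', ?_⟩
      have h1 := Subgroup.mul_mem _ hy hy'
      rw [Prod.mk_mul_mk] at h1
      have h2 : hw q g l a x * (hw q g l a ((x + (n + 1) * δ) % r))⁻¹ *
          (hw q g l a ((x + (n + 1) * δ) % r) * (hw q g l a ((x + (n + 1 + 1) * δ) % r))⁻¹) =
          hw q g l a x * (hw q g l a ((x + (n + 1 + 1) * δ) % r))⁻¹ := by
        group
      rw [h2] at h1
      exact h1
  -- choose n with r ∣ x + (n+1) δ
  obtain ⟨n, hn⟩ : ∃ n, (x + (n + 1) * δ) % r = 0 := by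
    have hcop : r.Coprime δ := (Nat.Prime.coprime_iff_not_dvd hr).2 hδ
    obtain ⟨v, hv, hv'⟩ := exists_residue hr0 hcop (x + δ) hr0
    refine ⟨v, ?_⟩
    rw [← hv']
    congr 1
    ring
  obtain ⟨y, hy⟩ := hchain n
  refine ⟨y, ?_⟩
  rw [hn, hw_zero hg, inv_one, mul_one] at hy
  exact hy

end Pool.Agent.Lib.MP_3e612f_nt.PS
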