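import Pool.Agent.Lib.MP_3e612f_nt.PS.Cu
import Pool.Agent.Lib.MP_3e612f_nt.PB.Oper

/-! Prefixes with small defect (blueprint, section Mart). -/

set_option autoImplicit false

namespace Pool.Agent.Lib.MP_3e612f_nt.PS

open Finset
open Pool.Agent.Lib.MP_3e612f_nt.PB

/-- two approximations by translates of the same function -/
theorem two_approx {K : Type} [Group K] [Fintype K] {A Θ : K → ℝ} {w w' : K} {e : ℝ}
    (h : nrm (fun z => A (z * w) - Θ z) ≤ e) (h' : nrm (fun z => A (z * w') - Θ z) ≤ e) :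
    nrm (fun z => Θ (z * (w * w'⁻¹)) - Θ z) ≤ 4 * e := by
  set F : K → ℝ := fun z => A (z * w) - Θ z with hF
  set F' : K → ℝ := fun z => A (z * w') - Θ z with hF'
  have e1 : (fun z => Θ (z * (w * w'⁻¹)) - Θ z) = fun z => F z - tr (w * w'⁻¹) F' z := by
    funext z
    simp only [hF, hF', tr]
    have : z * (w * w'⁻¹) * w' = z * w := by group
    rw [this]; ring
  rw [e1]
  have e2 : nrm (fun z => F z - tr (w * w'⁻¹) F' z) ≤ 2 * nrm F + 2 * nrm (tr (w * w'⁻¹) F') := by
    unfold nrm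
    rw [mul_sum, mul_sum, ← sum_add_distrib]
    refine sum_le_sum fun z _ => ?_
    nlinarith [sq_nonneg (F z + tr (w * w'⁻¹) F' z)]
  rw [nrm_tr] at e2
  linarith

/-- the defect of an average of vectors controls the distances to the average -/
theorem avg_defect {K : Type} [Group K] [Fintype K] {ι : Type} (s : Finset ι) (hs : s.Nonempty)
    (V : ι → K → ℝ) {S : ℝ} (hV : ∀ u ∈ s, nrm (V u) ≤ S) :
    ∑ u ∈ s, nrm (fun z => V u z - (∑ u' ∈ s, V u' z) / s.card) ≤
      s.card * (S - nrm (fun z => (∑ u ∈ s, V u z) / s.card)) := by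
  have hc : (0 : ℝ) < s.card := by exact_mod_cast hs.card_pos
  have e1 : ∑ u ∈ s, nrm (fun z => V u z - (∑ u' ∈ s, V u' z) / s.card) =
      ∑ u ∈ s, nrm (V u) - s.card * nrm (fun z => (∑ u ∈ s, V u z) / s.card) := by
    unfold nrm
    rw [sum_comm, sum_comm (s := s), mul_sum, ← sum_sub_distrib]
    refine sum_congr rfl fun z _ => ?_
    set m : ℝ := (∑ u' ∈ s, V u' z) / s.card with hm
    have hsum : ∑ u ∈ s, V u z = s.card * m := by rw [hm]; field_simp
    calc ∑ u ∈ s, (V u z - m) ^ 2 = ∑ u ∈ s, (V u z ^ 2 - 2 * m * V u z + m ^ 2) :=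
          sum_congr rfl fun u _ => by ring
      _ = ∑ u ∈ s, V u z ^ 2 - 2 * m * ∑ u ∈ s, V u z + s.card * m ^ 2 := by
          rw [sum_add_distrib, sum_sub_distrib, ← mul_sum, sum_const, nsmul_eq_mul]
      _ = _ := by rw [hsum]; ring
  rw [e1]
  have e2 : ∑ u ∈ s, nrm (V u) ≤ s.card * S := by
    calc ∑ u ∈ s, nrm (V u) ≤ ∑ _u ∈ s, S := sum_le_sum hV
      _ = _ := by rw [sum_const, nsmul_eq_mul]
  linarith

variable {G : Type} [Group G] [Fintype G] {q : ℕ → ℕ} {g : ℕ → ℕ → G} {B : ℕ} {p r : ℕ}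

/-- the bound at the level `W` gives the bound at the smaller levels -/
private theorem Mart_level (hq : Rad B q) {A : ℕ × ℕ → G × G → ℝ} {Θ : G × G → ℝ}
    (l R W : ℕ) (hW : W ≤ R) (c₀ : ℕ × ℕ) (w₀ : G × G) {E : ℝ}
    (h : ∀ v < Qr q l W, nrm (fun z => TT q g p r (l + W) (R - W) A (cu q p r l W c₀ v)
      (z * (w₀ * wu q g p r l W c₀ v)) - Θ z) ≤ E) :
    ∀ W' ≤ W, ∀ v < Qr q l W', nrm (fun z => TT q g p r (l + W') (R - W') A
      (cu q p r l W' c₀ v) (z * (w₀ * wu q g p r l W' c₀ v)) - Θ z) ≤ E := by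
  intro W' hW' v hv
  obtain ⟨d, rfl⟩ := Nat.exists_eq_add_of_le hW'
  have hQ : (0 : ℝ) < Qr q (l + W') d := by exact_mod_cast Qr_pos hq (l + W') d
  have e0 : R - W' = d + (R - (W' + d)) := by omega
  have e1 : (fun z => TT q g p r (l + W') (R - W') A
      (cu q p r l W' c₀ v) (z * (w₀ * wu q g p r l W' c₀ v)) - Θ z) =
      fun z => ∑ v' ∈ range (Qr q (l + W') d), (1 / (Qr q (l + W') d : ℝ)) *
        (TT q g p r (l + (W' + d)) (R - (W' + d)) A (cu q p r l (W' + d) c₀ (v + Qr q l W' * v'))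
          (z * (w₀ * wu q g p r l (W' + d) c₀ (v + Qr q l W' * v'))) - Θ z) := by
    funext z
    rw [e0, TT_add hq, TT_eq, ← mul_sum, sum_sub_distrib, sum_const, card_range, nsmul_eq_mul]
    have e2 : ∑ u ∈ range (Qr q (l + W') d), TT q g p r (l + W' + d) (R - (W' + d)) A
        (cu q p r (l + W') d (cu q p r l W' c₀ v) u)
        (z * (w₀ * wu q g p r l W' c₀ v) * wu q g p r (l + W') d (cu q p r l W' c₀ v) u) =
        ∑ v' ∈ range (Qr q (l + W') d), TT q g p r (l + (W' + d)) (R - (W' + d)) A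
          (cu q p r l (W' + d) c₀ (v + Qr q l W' * v'))
          (z * (w₀ * wu q g p r l (W' + d) c₀ (v + Qr q l W' * v'))) := by
      refine sum_congr rfl fun u _ => ?_
      rw [cu_add hq, wu_add hq, Nat.add_assoc]
      congr 1
      group
    beta_reduce
    rw [e2]
    field_simp
  rw [e1]
  refine (nrm_weighted (range (Qr q (l + W') d)) (fun _ => 1 / (Qr q (l + W') d : ℝ)) ?_ ?_
    _).trans ?_
  · intro _ _; positivity
  · rw [sum_const, card_range, nsmul_eq_mul]
    field_simp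
  · calc _ ≤ ∑ _v' ∈ range (Qr q (l + W') d), 1 / (Qr q (l + W') d : ℝ) * E := by
          refine sum_le_sum fun v' hv' => mul_le_mul_of_nonneg_left ?_ (by positivity)
          refine h _ ?_
          rw [mem_range] at hv'
          rw [Qr_add]
          calc v + Qr q l W' * v' < Qr q l W' + Qr q l W' * v' := by omega
            _ = Qr q l W' * (v' + 1) := by ring
            _ ≤ Qr q l W' * Qr q (l + W') d := Nat.mul_le_mul_left _ hv'
      _ = E := by
          rw [sum_const, card_range, nsmul_eq_mul]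
          field_simp

/-- a prefix of `m` digits after which all continuations by at most `W` digits have small defect -/
theorem good_prefix (hq : Rad B q) {S : ℝ} {A : ℕ × ℕ → G × G → ℝ} (hA : ∀ c, nrm (A c) ≤ S)
    (i m W M : ℕ) (hM : m + W ≤ M) (c : ℕ × ℕ) :
    ∃ u₀, u₀ < Qr q i m ∧ ∀ W' ≤ W, ∀ v < Qr q (i + m) W',
      nrm (fun z => TT q g p r (i + m + W') (M - m - W') A
          (cu q p r (i + m) W' (cu q p r i m c u₀) v)
          (z * (wu q g p r i m c u₀ * wu q g p r (i + m) W' (cu q p r i m c u₀) v)) -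
        TT q g p r i M A c z) ≤ (B : ℝ) ^ W * (S - nrm (TT q g p r i M A c)) := by
  set Θ : G × G → ℝ := TT q g p r i M A c with hΘ
  set V : ℕ → G × G → ℝ := fun u z => TT q g p r (i + (m + W)) (M - (m + W)) A
    (cu q p r i (m + W) c u) (z * wu q g p r i (m + W) c u) with hV
  have hnV : ∀ u, nrm (V u) ≤ S := by
    intro u
    have : V u = tr (wu q g p r i (m + W) c u) (TT q g p r (i + (m + W)) (M - (m + W)) A
      (cu q p r i (m + W) c u)) := rfl
    rw [this, nrm_tr]
    exact TT_nrm_le hq _ _ hA _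
  have hnΘ : nrm Θ ≤ S := TT_nrm_le hq _ _ hA _
  have hΘeq : ∀ z, Θ z = (∑ u ∈ range (Qr q i (m + W)), V u z) /
      ((range (Qr q i (m + W))).card : ℝ) := by
    intro z
    rw [hΘ, card_range]
    conv_lhs => rw [show M = (m + W) + (M - (m + W)) by omega]
    rw [TT_add hq, TT_eq]
  have hne : (range (Qr q i (m + W))).Nonempty := ⟨0, by rw [mem_range]; exact Qr_pos hq _ _⟩
  have hd := avg_defect (range (Qr q i (m + W))) hne V (fun u _ => hnV u)
  have e1 : (fun z => (∑ u ∈ range (Qr q i (m + W)), V u z) /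
      ((range (Qr q i (m + W))).card : ℝ)) = Θ := by
    funext z; rw [hΘeq]
  rw [e1] at hd
  have e2 : ∀ u, (fun z => V u z - (∑ u' ∈ range (Qr q i (m + W)), V u' z) /
      ((range (Qr q i (m + W))).card : ℝ)) = fun z => V u z - Θ z := by
    intro u; funext z; rw [hΘeq]
  simp only [e2] at hd
  rw [card_range, Qr_add, TransA_sum_mul] at hd
  push_cast at hd
  obtain ⟨u₀, hu₀, hsum⟩ : ∃ u₀ ∈ range (Qr q i m), ∑ v ∈ range (Qr q (i + m) W),
      nrm (fun z => V (u₀ + Qr q i m * v) z - Θ z) ≤ (Qr q (i + m) W : ℝ) * (S - nrm Θ) := by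
    by_contra hcon
    push Not at hcon
    have hne' : (range (Qr q i m)).Nonempty := ⟨0, by rw [mem_range]; exact Qr_pos hq _ _⟩
    have := sum_lt_sum_of_nonempty hne' hcon
    rw [sum_const, card_range, nsmul_eq_mul] at this
    linarith
  rw [mem_range] at hu₀
  refine ⟨u₀, hu₀, ?_⟩
  have hWM : W ≤ M - m := by omega
  have hbound : ∀ v < Qr q (i + m) W, nrm (fun z => TT q g p r (i + m + W) (M - m - W) A
      (cu q p r (i + m) W (cu q p r i m c u₀) v)
      (z * (wu q g p r i m c u₀ * wu q g p r (i + m) W (cu q p r i m c u₀) v)) - Θ z) ≤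
      (B : ℝ) ^ W * (S - nrm Θ) := by
    intro v hv
    have h1 : nrm (fun z => V (u₀ + Qr q i m * v) z - Θ z) ≤
        (Qr q (i + m) W : ℝ) * (S - nrm Θ) :=
      (single_le_sum (f := fun v => nrm (fun z => V (u₀ + Qr q i m * v) z - Θ z))
        (fun v _ => nrm_nonneg _) (mem_range.2 hv)).trans hsum
    have h2 : (Qr q (i + m) W : ℝ) ≤ (B : ℝ) ^ W := by exact_mod_cast Qr_le_pow hq (i + m) W
    have h3 : (Qr q (i + m) W : ℝ) * (S - nrm Θ) ≤ (B : ℝ) ^ W * (S - nrm Θ) :=
      mul_le_mul_of_nonneg_right h2 (by linarith)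
    have h4 : (fun z => TT q g p r (i + m + W) (M - m - W) A
        (cu q p r (i + m) W (cu q p r i m c u₀) v)
        (z * (wu q g p r i m c u₀ * wu q g p r (i + m) W (cu q p r i m c u₀) v)) - Θ z) =
        fun z => V (u₀ + Qr q i m * v) z - Θ z := by
      funext z
      rw [hV]
      simp only
      rw [cu_add hq, wu_add hq, Nat.add_assoc, Nat.sub_sub]
    rw [h4]
    exact h1.trans h3
  exact Mart_level hq (i + m) (M - m) W hWM (cu q p r i m c u₀) (wu q g p r i m c u₀) hbound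

end Pool.Agent.Lib.MP_3e612f_nt.PS
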