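import Pool.Agent.Lib.MP_3e612f_nt.PS.Mix
import Pool.Agent.Lib.MP_3e612f_nt.PB.NonStr

/-! Pair correlations of the unstructured part, with shifts (blueprint, section PairBlock). -/

set_option autoImplicit false

namespace Pool.Agent.Lib.MP_3e612f_nt.PS

open Finset
open Pool.Agent.Lib.MP_3e612f_nt.PB

variable {G : Type} [Group G] [Fintype G] {q : ℕ → ℕ} {g : ℕ → ℕ → G} {B : ℕ} {p r k : ℕ}

theorem pair_blockA (hq : Rad B q) (hg : Neu g) (hp : 2 ≤ p) (hpr : p + 2 ≤ r) (hr : r.Prime)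
    (hrq : ∀ j, ¬ r ∣ q j) (hk : p * r < 2 ^ k) (hG : Fintype.card G < r)
    {c : ℕ → ℕ} (hc0 : c 0 = 0) (hc : Monotone c) {n K : ℕ}
    (S : Finset ℕ) (hSn : S ⊆ range n) (hSK : ∀ i ∈ S, c (i + 1) ≤ K) (κ : ℕ → ℕ)
    (hsp : ∀ i ∈ S, Spaced (Nlin q g) k (c i) (c (i + 1)) (κ i))
    (V : (Fin n → G) → ℝ) (Δ : Fin n → (Fin n → G) → ℝ) (hV : ∀ ω, |V ω| ≤ 2)
    (hΔ : ∀ i ω, |Δ i ω| ≤ 2) (hsum : ∀ ω, V ω = ∑ i, Δ i ω)
    (hbal : ∀ i : Fin n, (i : ℕ) ∈ S → BalAt i (Nlin q g (c i) (c (i + 1))) (Δ i))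
    (hzero : ∀ i : Fin n, (i : ℕ) ∉ S → ∀ ω, Δ i ω = 0) (s₁ s₂ y : ℕ) :
    |∑ v ∈ range (Qr q 0 K), V (fun j => zz q g c j (p * (v + Qr q 0 K * y) + s₁)) *
        V (fun j => zz q g c j (r * (v + Qr q 0 K * y) + s₂))| ≤
      (∑ i ∈ S, 4 * (Fintype.card G : ℝ) * Real.sqrt (rho G B k ^ κ i)) * Qr q 0 K := by
  have hterm : ∀ i : Fin n,
      |∑ v ∈ range (Qr q 0 K), V (fun j => zz q g c j (p * (v + Qr q 0 K * y) + s₁)) *
        Δ i (fun j => zz q g c j (r * (v + Qr q 0 K * y) + s₂))| ≤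
      (if (i : ℕ) ∈ S then 4 * (Fintype.card G : ℝ) *
        Real.sqrt (rho G B k ^ κ i) * Qr q 0 K else 0) := by
    intro i
    by_cases hi : (i : ℕ) ∈ S
    · rw [if_pos hi]
      obtain ⟨Φ, hΦ1, hΦ2, -⟩ := exists_rep (q := q) (g := g) hq hc0 hc i V
      obtain ⟨Ψ, hΨ1, hΨ2, hΨ3⟩ := exists_rep (q := q) (g := g) hq hc0 hc i (Δ i)
      exact mixA hq hg hp hpr hr hrq hk hG (hc (Nat.le_succ (i : ℕ))) (hSK i hi)
        (hsp i hi) Φ Ψ (hΦ2 2 hV) (hΨ2 2 (hΔ i)) (hΨ3 _ (hbal i hi))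
        (fun x => V (fun j => zz q g c j x)) (fun x => Δ i (fun j => zz q g c j x))
        hΦ1 hΨ1 s₁ s₂ y
    · rw [if_neg hi]
      have h0 : ∀ v ∈ range (Qr q 0 K),
          V (fun j => zz q g c j (p * (v + Qr q 0 K * y) + s₁)) *
            Δ i (fun j => zz q g c j (r * (v + Qr q 0 K * y) + s₂)) = 0 := by
        intro v _
        rw [hzero i hi, mul_zero]
      rw [Finset.sum_eq_zero h0, abs_zero]
  have hexp : ∑ v ∈ range (Qr q 0 K), V (fun j => zz q g c j (p * (v + Qr q 0 K * y) + s₁)) *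
        V (fun j => zz q g c j (r * (v + Qr q 0 K * y) + s₂)) =
      ∑ i : Fin n, ∑ v ∈ range (Qr q 0 K),
        V (fun j => zz q g c j (p * (v + Qr q 0 K * y) + s₁)) *
          Δ i (fun j => zz q g c j (r * (v + Qr q 0 K * y) + s₂)) := by
    rw [Finset.sum_comm]
    refine Finset.sum_congr rfl fun v _ => ?_
    rw [← Finset.mul_sum, ← hsum]
  rw [hexp]
  calc |∑ i : Fin n, ∑ v ∈ range (Qr q 0 K),
        V (fun j => zz q g c j (p * (v + Qr q 0 K * y) + s₁)) *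
          Δ i (fun j => zz q g c j (r * (v + Qr q 0 K * y) + s₂))|
      ≤ ∑ i : Fin n, |∑ v ∈ range (Qr q 0 K),
        V (fun j => zz q g c j (p * (v + Qr q 0 K * y) + s₁)) *
          Δ i (fun j => zz q g c j (r * (v + Qr q 0 K * y) + s₂))| :=
        Finset.abs_sum_le_sum_abs _ _
    _ ≤ ∑ i : Fin n, (if (i : ℕ) ∈ S then 4 * (Fintype.card G : ℝ) *
        Real.sqrt (rho G B k ^ κ i) * Qr q 0 K else 0) :=
        Finset.sum_le_sum fun i _ => hterm i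
    _ = ∑ i ∈ range n, (if i ∈ S then 4 * (Fintype.card G : ℝ) *
        Real.sqrt (rho G B k ^ κ i) * Qr q 0 K else 0) :=
        Fin.sum_univ_eq_sum_range (fun i : ℕ => (if i ∈ S then 4 * (Fintype.card G : ℝ) *
          Real.sqrt (rho G B k ^ κ i) * Qr q 0 K else 0)) n
    _ = (∑ i ∈ S, 4 * (Fintype.card G : ℝ) *
        Real.sqrt (rho G B k ^ κ i)) * Qr q 0 K := by
        rw [Finset.sum_ite_mem, Finset.inter_eq_right.2 hSn, Finset.sum_mul]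

end Pool.Agent.Lib.MP_3e612f_nt.PS
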