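import Pool.Agent.Lib.MP_3e612f_nt.PS.Final
import Pool.Agent.Lib.MP_3e612f_nt.PS.SubA

/-! Sliding blocks (blueprint, section Sub). -/

set_option autoImplicit false

namespace Pool.Agent.Lib.MP_3e612f_nt.PS

open Finset
open Pool.Agent.Lib.MP_3e612f_nt.PB

private theorem SubB_mu (n : ℕ) : ‖((ArithmeticFunction.moebius n : ℤ) : ℂ)‖ ≤ 1 := by
  rw [Complex.norm_intCast]
  exact_mod_cast ArithmeticFunction.abs_moebius_le_one

private theorem SubB_sum (N : ℕ) (P : ℕ → Prop) [DecidablePred P] (φ ψ : ℕ → ℂ) {ε c : ℝ}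
    (hε : 0 < ε) (hφ : ∀ n, ‖φ n‖ ≤ 1) (hψ : ∀ n, ‖ψ n‖ ≤ 1)
    (hg : ∀ n ∈ Icc 1 N, P n → ‖φ n - ψ n‖ ≤ ε)
    (hc : (((Icc 1 N).filter fun n => ¬ P n).card : ℝ) ≤ c) :
    ‖∑ n ∈ Icc 1 N, ((ArithmeticFunction.moebius n : ℤ) : ℂ) * φ n‖ ≤
      ‖∑ n ∈ Icc 1 N, ((ArithmeticFunction.moebius n : ℤ) : ℂ) * ψ n‖ + ε * N + 2 * c := by
  have e : ∑ n ∈ Icc 1 N, ((ArithmeticFunction.moebius n : ℤ) : ℂ) * φ n =
      (∑ n ∈ Icc 1 N, ((ArithmeticFunction.moebius n : ℤ) : ℂ) * ψ n) +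
        ∑ n ∈ Icc 1 N, ((ArithmeticFunction.moebius n : ℤ) : ℂ) * (φ n - ψ n) := by
    rw [← Finset.sum_add_distrib]
    exact Finset.sum_congr rfl fun n _ => by ring
  have h1 : ‖∑ n ∈ Icc 1 N, ((ArithmeticFunction.moebius n : ℤ) : ℂ) * (φ n - ψ n)‖ ≤
      ∑ n ∈ Icc 1 N, (ε + if ¬ P n then 2 else 0) := by
    refine (norm_sum_le _ _).trans (Finset.sum_le_sum fun n hn => ?_)
    have h2 : ‖((ArithmeticFunction.moebius n : ℤ) : ℂ) * (φ n - ψ n)‖ ≤ ‖φ n - ψ n‖ := by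
      rw [norm_mul]
      exact mul_le_of_le_one_left (norm_nonneg _) (SubB_mu n)
    refine h2.trans ?_
    by_cases hP : P n
    · rw [if_neg (not_not.2 hP), add_zero]
      exact hg n hn hP
    · rw [if_pos hP]
      have h3 := (norm_sub_le (φ n) (ψ n)).trans (add_le_add (hφ n) (hψ n))
      linarith
  have h2 : ∑ n ∈ Icc 1 N, (ε + if ¬ P n then (2 : ℝ) else 0) =
      ε * N + 2 * ((Icc 1 N).filter fun n => ¬ P n).card := by
    rw [Finset.sum_add_distrib, Finset.sum_const, Nat.card_Icc, ← Finset.sum_filter,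
      Finset.sum_const, nsmul_eq_mul, nsmul_eq_mul, Nat.add_sub_cancel]
    ring
  rw [h2] at h1
  rw [e]
  refine (norm_add_le _ _).trans ?_
  linarith

/-- functions which are almost determined by a block of `m` consecutive values -/
theorem sub_core (G : Type) [Group G] [Finite G] (B : ℕ) (hB : 2 ≤ B) (m : ℕ) {ε : ℝ}
    (hε : 0 < ε) :
    ∃ N0 : ℕ, ∀ N ≥ N0, ∀ q : ℕ → ℕ, (∀ j, 2 ≤ q j ∧ q j ≤ B) → ∀ (g : ℕ → ℕ → G) (L s : ℕ)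
      (φ : ℕ → ℂ), (∀ n, ‖φ n‖ ≤ 1) →
      (∀ n n' : ℕ, 1 ≤ n → n ≤ N → 1 ≤ n' → n' ≤ N →
        (∀ i < m, hw q g 0 L (n + s + i) = hw q g 0 L (n' + s + i)) → ‖φ n - φ n'‖ ≤ ε) →
      ‖∑ n ∈ Icc 1 N, ((ArithmeticFunction.moebius n : ℤ) : ℂ) * φ n‖ ≤ 3 * ε * N := by
  classical
  have : NeZero B := ⟨by omega⟩
  obtain ⟨k, hk⟩ : ∃ k : ℕ, 4 * (m : ℝ) / ε < 2 ^ k := pow_unbounded_of_one_lt _ one_lt_two
  obtain ⟨N1, hN1⟩ := main_complex (G × (Fin k → Multiplicative (ZMod B))) B hε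
  obtain ⟨N2, hN2⟩ := exists_nat_gt (8 * (m : ℝ) / ε)
  refine ⟨max N1 N2, fun N hN q hq g L s φ hφ hd => ?_⟩
  have hNN1 : N1 ≤ N := (le_max_left _ _).trans hN
  have hNN2 : N2 ≤ N := (le_max_right _ _).trans hN
  have hrad : Rad B q := hq
  obtain ⟨g', L', hrec⟩ := record B k hrad g L
  set F : G × (Fin k → Multiplicative (ZMod B)) → ℂ := fun h =>
    if hx : ∃ n, (1 ≤ n ∧ n ≤ N) ∧ hw q g' 0 L' (n + s) = h then φ hx.choose else 0 with hF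
  have hF1 : ∀ h, ‖F h‖ ≤ 1 := by
    intro h
    rw [hF]
    dsimp only
    split_ifs with hx
    · exact hφ _
    · rw [norm_zero]
      exact zero_le_one
  have hgood : ∀ n ∈ Icc 1 N, ((n + s) % Qr q 0 k + m ≤ Qr q 0 k) →
      ‖φ n - F (hw q g' 0 L' (n + s))‖ ≤ ε := by
    intro n hn hnm
    rw [Finset.mem_Icc] at hn
    have hx : ∃ n', (1 ≤ n' ∧ n' ≤ N) ∧ hw q g' 0 L' (n' + s) = hw q g' 0 L' (n + s) :=
      ⟨n, hn, rfl⟩
    have e : F (hw q g' 0 L' (n + s)) = φ hx.choose := by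
      rw [hF]
      exact dif_pos hx
    rw [e]
    obtain ⟨h1, h2⟩ := hx.choose_spec
    obtain ⟨h3, h4⟩ := hrec (n + s) (hx.choose + s) h2.symm
    exact hd n hx.choose hn.1 hn.2 h1.1 h1.2 fun i hi => h4 i (by omega)
  have hQ1 : 1 ≤ Qr q 0 k := Qr_pos hrad 0 k
  have hbad := few_bad hQ1 m s N
  have hmain := hN1 N hNN1 q hq g' L' s F hF1
  have hsum := SubB_sum N (fun n => (n + s) % Qr q 0 k + m ≤ Qr q 0 k) φ
    (fun n => F (hw q g' 0 L' (n + s))) hε hφ (fun n => hF1 _) hgood hbad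
  refine hsum.trans ?_
  have hN0 : (0 : ℝ) ≤ N := Nat.cast_nonneg N
  have hm0 : (0 : ℝ) ≤ m := Nat.cast_nonneg m
  have hQ : (2 : ℝ) ^ k ≤ Qr q 0 k := by exact_mod_cast two_pow_le_Qr hrad 0 k
  have hQ0 : (0 : ℝ) < Qr q 0 k := by exact_mod_cast hQ1
  have h1 : 4 * (m : ℝ) ≤ ε * Qr q 0 k := by
    rw [div_lt_iff₀ hε] at hk
    nlinarith
  have h2 : 8 * (m : ℝ) ≤ ε * N := by
    rw [div_lt_iff₀ hε] at hN2
    have h3 : (N2 : ℝ) ≤ N := by exact_mod_cast hNN2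
    nlinarith
  have h4 : (m : ℝ) * ((N : ℝ) / Qr q 0 k) ≤ ε * N / 4 := by
    rw [← mul_div_assoc, div_le_iff₀ hQ0]
    nlinarith
  nlinarith

end Pool.Agent.Lib.MP_3e612f_nt.PS
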