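import Pool.Agent.Lib.MP_3e612f_nt.PS.SubC

/-! The universal subshift has few words (blueprint, section Sub). -/

set_option autoImplicit false

namespace Pool.Agent.Lib.MP_3e612f_nt.PS

open Finset
open Pool.Agent.Lib.MP_3e612f_nt.PB

section

variable {G : Type} [Group G]

theorem SubD_hw_congr {q q' : ℕ → ℕ} {g g' : ℕ → ℕ → G} (hpos : ∀ i, 0 < q i) (k : ℕ) :
    ∀ (j n : ℕ), (∀ i, j ≤ i → i < j + k → q i = q' i) →
      (∀ i, j ≤ i → i < j + k → ∀ d, d < q i → g i d = g' i d) →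
      hw q g j k n = hw q' g' j k n := by
  induction k with
  | zero => intro j n _ _; rfl
  | succ k ih =>
    intro j n hq hg
    rw [DigH_succ, DigH_succ, ← hq j le_rfl (by omega),
      hg j le_rfl (by omega) _ (Nat.mod_lt _ (hpos j)),
      ih (j + 1) _ (fun i h1 h2 => hq i (by omega) (by omega))
        (fun i h1 h2 => hg i (by omega) (by omega))]

theorem SubD_hw_one (q : ℕ → ℕ) {g : ℕ → ℕ → G} (k : ℕ) :
    ∀ (j n : ℕ), (∀ i, j ≤ i → ∀ d, g i d = 1) → hw q g j k n = 1 := by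
  induction k with
  | zero => intro j n _; rfl
  | succ k ih =>
    intro j n hg
    rw [DigH_succ, hg j le_rfl, ih (j + 1) _ (fun i h1 => hg i (by omega)), one_mul]

/-- data describing a block of length at most `2 ^ k` -/
abbrev SubD_Dat (G : Type) (B k : ℕ) : Type :=
  (Fin k → Fin (B + 1)) × (Fin k → Fin B → G) × Fin (B ^ k) × G × G

/-- radices of the data -/
def SubD_q {B k : ℕ} (d : SubD_Dat G B k) (j : ℕ) : ℕ :=
  if h : j < k then (d.1 ⟨j, h⟩ : ℕ) else 0

/-- digit values of the data -/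
def SubD_g {B k : ℕ} (d : SubD_Dat G B k) (j e : ℕ) : G :=
  if h : j < k then (if h' : e < B then d.2.1 ⟨j, h⟩ ⟨e, h'⟩ else 1) else 1

/-- the block described by the data -/
def SubD_word {B k : ℕ} (d : SubD_Dat G B k) (i : ℕ) : G :=
  hw (SubD_q d) (SubD_g d) 0 k (i + d.2.2.1) *
    (if i + d.2.2.1 < Qr (SubD_q d) 0 k then d.2.2.2.1 else d.2.2.2.2)

theorem SubD_exists {B k : ℕ} {x : ℕ → G} (hx : x ∈ UX G B) :
    ∃ d : SubD_Dat G B k, ∀ i < 2 ^ k, x i = SubD_word d i := by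
  obtain ⟨q, g, L, s, hq, hxi⟩ := hx (2 ^ k)
  have hR : Rad B q := hq
  set g' : ℕ → ℕ → G := fun j e => if j < L then g j e else 1 with hg'
  obtain ⟨t, ht⟩ : ∃ t, L ≤ k + t := ⟨L, by omega⟩
  have hpad : ∀ n, hw q g 0 L n = hw q g' 0 (k + t) n := by
    intro n
    obtain ⟨u, hu⟩ := Nat.exists_eq_add_of_le ht
    rw [hu, hw_add, SubD_hw_one q u (0 + L) _ (fun i h1 e => by
      rw [hg']
      exact if_neg (by omega)), mul_one]
    exact SubD_hw_congr (fun i => lt_of_lt_of_le (by norm_num) (hq i).1) L 0 n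
      (fun _ _ _ => rfl) (fun i _ h2 e _ => by
        rw [hg']
        exact (if_pos (by omega)).symm)
  set Q := Qr q 0 k with hQ
  have hQpos : 0 < Q := Qr_pos hR 0 k
  have hQle : Q ≤ B ^ k := Qr_le_pow hR 0 k
  have hs0 : s % Q < Q := Nat.mod_lt _ hQpos
  refine ⟨(fun j => ⟨q j, Nat.lt_succ_of_le (hq j).2⟩, fun j e => g' j e,
    ⟨s % Q, hs0.trans_le hQle⟩, hw q g' k t (s / Q), hw q g' k t (s / Q + 1)), ?_⟩
  intro i hi
  have hi' : i < Q := hi.trans_le (two_pow_le_Qr hR 0 k)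
  set d : SubD_Dat G B k := (fun j => ⟨q j, Nat.lt_succ_of_le (hq j).2⟩, fun j e => g' j e,
    ⟨s % Q, hs0.trans_le hQle⟩, hw q g' k t (s / Q), hw q g' k t (s / Q + 1)) with hd
  have hdq : ∀ j, j < k → SubD_q d j = q j := by
    intro j hj
    simp [SubD_q, hj, hd]
  have hdg : ∀ j e, j < k → e < B → SubD_g d j e = g' j e := by
    intro j e hj he
    simp [SubD_g, hj, he, hd]
  have hdQ : Qr (SubD_q d) 0 k = Q := by
    rw [hQ]
    unfold Qr
    refine Finset.prod_congr rfl fun j hj => ?_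
    rw [hdq _ (by simpa using hj)]
  have hdw : ∀ n, hw (SubD_q d) (SubD_g d) 0 k n = hw q g' 0 k n := by
    intro n
    refine (SubD_hw_congr (fun i => lt_of_lt_of_le (by norm_num) (hq i).1) k 0 n
      (fun j _ h2 => (hdq j (by omega)).symm) (fun j _ h2 e he =>
        (hdg j e (by omega) (he.trans_le (hq j).2)).symm)).symm
  have hds : ((d.2.2.1 : Fin (B ^ k)) : ℕ) = s % Q := rfl
  have hdec : i + s = (i + s % Q) + Q * (s / Q) := by
    have := Nat.mod_add_div s Q
    omega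
  rw [hxi i hi, hpad, hw_add, SubD_word, hdw, hdQ, hds]
  congr 1
  · rw [← hw_mod hR 0 k (i + s), ← hw_mod hR 0 k (i + s % Q), ← hQ, hdec,
      Nat.add_mul_mod_self_left]
  · rw [← hQ, hdec, Nat.add_mul_div_left _ _ hQpos, Nat.zero_add]
    split_ifs with h
    · rw [Nat.div_eq_of_lt h, Nat.zero_add]
    · have h1 : (i + s % Q) / Q = 1 := by
        rw [Nat.div_eq_of_lt_le] <;> omega
      rw [h1, Nat.add_comm 1]

end

/-- few words: the first `2 ^ k` coordinates of a point of the universal subshift are determined by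
a colour out of `A ^ (k + 1)` -/
theorem UX_words (G : Type) [Group G] [Finite G] (B : ℕ) (hB : 2 ≤ B) :
    ∃ A : ℕ, 1 ≤ A ∧ ∀ k : ℕ, ∃ c : (ℕ → G) → Fin (A ^ (k + 1)),
      ∀ x ∈ UX G B, ∀ y ∈ UX G B, c x = c y → ∀ i < 2 ^ k, x i = y i := by
  classical
  have := Fintype.ofFinite G
  set a := Fintype.card G with ha
  have ha1 : 1 ≤ a := Fintype.card_pos
  obtain ⟨T, hT⟩ : ∃ T, T = (B + 1) * a ^ B * B := ⟨_, rfl⟩
  have hT1 : 1 ≤ T := by
    rw [hT]
    have : 1 ≤ a ^ B := Nat.one_le_pow _ _ ha1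
    exact Nat.mul_pos (Nat.mul_pos (by omega) this) (by omega)
  refine ⟨a * a * T, Nat.mul_pos (Nat.mul_pos ha1 ha1) hT1, fun k => ?_⟩
  have hcard : Fintype.card (SubD_Dat G B k) ≤ (a * a * T) ^ (k + 1) := by
    have e : Fintype.card (SubD_Dat G B k) = T ^ k * (a * a) := by
      simp only [SubD_Dat, Fintype.card_prod, Fintype.card_fun, Fintype.card_fin]
      rw [← ha, hT, mul_pow, mul_pow, ← pow_mul]
      ring
    rw [e, pow_succ, mul_pow]
    have h1 : 1 ≤ (a * a) ^ k := Nat.one_le_pow _ _ (Nat.mul_pos ha1 ha1)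
    calc T ^ k * (a * a) = 1 * T ^ k * (a * a * 1) := by ring
      _ ≤ (a * a) ^ k * T ^ k * (a * a * T) :=
        Nat.mul_le_mul (Nat.mul_le_mul_right _ h1) (Nat.mul_le_mul_left _ hT1)
  have hne : Nonempty (SubD_Dat G B k) := by
    obtain ⟨d, -⟩ := SubD_exists (k := k) (UX_nonempty (G := G) hB)
    exact ⟨d⟩
  let D : (ℕ → G) → SubD_Dat G B k := fun x =>
    if hx : x ∈ UX G B then Classical.choose (SubD_exists (k := k) hx) else Classical.choice hne
  have hD : ∀ x ∈ UX G B, ∀ i < 2 ^ k, x i = SubD_word (D x) i := by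
    intro x hx
    have : D x = Classical.choose (SubD_exists (k := k) hx) := dif_pos hx
    rw [this]
    exact Classical.choose_spec (SubD_exists (k := k) hx)
  refine ⟨fun x => Fin.castLE hcard (Fintype.equivFin _ (D x)), ?_⟩
  intro x hx y hy hxy i hi
  have h1 : D x = D y := by
    apply (Fintype.equivFin (SubD_Dat G B k)).injective
    exact Fin.castLE_injective hcard hxy
  rw [hD x hx i hi, hD y hy i hi, h1]

end Pool.Agent.Lib.MP_3e612f_nt.PS
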