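import Pool.Agent.Lib.MP_3e612f_nt.PB.Defs

/-! The universal subshift, definition. -/

set_option autoImplicit false

namespace Pool.Agent.Lib.MP_3e612f_nt.PS

open Pool.Agent.Lib.MP_3e612f_nt.PB

/-- all sequences whose initial blocks occur in digit product sequences with radices at most `B` -/
def UX (G : Type) [Group G] (B : ℕ) : Set (ℕ → G) :=
  {x | ∀ l : ℕ, ∃ (q : ℕ → ℕ) (g : ℕ → ℕ → G) (L s : ℕ), (∀ j, 2 ≤ q j ∧ q j ≤ B) ∧
    ∀ i < l, x i = hw q g 0 L (i + s)}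

end Pool.Agent.Lib.MP_3e612f_nt.PS
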