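import Pool.Agent.Lib.MP_3e612f_nt.PS.SubB
import Pool.Agent.Lib.MP_3e612f_nt.PS.SubC

/-! Moebius disjointness of the universal subshift. -/

set_option autoImplicit false

namespace Pool.Agent.Lib.MP_3e612f_nt.PS

open Finset
open Pool.Agent.Lib.MP_3e612f_nt.PB

theorem UX_main (G : Type) [Group G] [Finite G] [TopologicalSpace G] [DiscreteTopology G]
    (B : ℕ) (hB : 2 ≤ B) (f : (ℕ → G) → ℂ) (hf : ContinuousOn f (UX G B)) {ε : ℝ} (hε : 0 < ε) :
    ∃ N₀ : ℕ, ∀ N ≥ N₀, ∀ x ∈ UX G B,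
      ‖∑ n ∈ Icc 1 N, ((ArithmeticFunction.moebius n : ℤ) : ℂ) * f (fun i => x (i + n))‖ ≤
        ε * N := by
  classical
  obtain ⟨C, hC, hfC⟩ := bdd_on (UX_closed (G := G) B) hf
  have hε' : 0 < ε / (3 * C) := by positivity
  obtain ⟨m, hm⟩ := unif_coord (UX_closed (G := G) B) hf (mul_pos hC hε')
  obtain ⟨N0, hN0⟩ := sub_core G B hB m hε'
  refine ⟨N0, fun N hN x hx => ?_⟩
  obtain ⟨q, g, L, s, hq, hxs⟩ := hx (N + m + 1)
  have hmem : ∀ n : ℕ, (fun i => x (i + n)) ∈ UX G B := fun n => UX_shift hx n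
  have h1 := hN0 N hN q hq g L s (fun n => f (fun i => x (i + n)) / C)
    (fun n => by
      rw [norm_div, Complex.norm_real, Real.norm_eq_abs, abs_of_pos hC, div_le_one hC]
      exact hfC _ (hmem n))
    (fun n n' h1n hnN h1n' hn'N hw => by
      rw [← sub_div, norm_div, Complex.norm_real, Real.norm_eq_abs, abs_of_pos hC,
        div_le_iff₀ hC, mul_comm]
      refine hm _ (hmem n) _ (hmem n') fun i hi => ?_
      rw [hxs (i + n) (by omega), hxs (i + n') (by omega)]
      have := hw i hi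
      rw [show i + n + s = n + s + i by omega, show i + n' + s = n' + s + i by omega]
      exact this)
  have e : ∑ n ∈ Icc 1 N, ((ArithmeticFunction.moebius n : ℤ) : ℂ) * f (fun i => x (i + n)) =
      C * ∑ n ∈ Icc 1 N, ((ArithmeticFunction.moebius n : ℤ) : ℂ) *
        (f (fun i => x (i + n)) / C) := by
    rw [Finset.mul_sum]
    refine Finset.sum_congr rfl fun n _ => ?_
    have hC' : (C : ℂ) ≠ 0 := by exact_mod_cast hC.ne'
    field_simp
  rw [e, norm_mul, Complex.norm_real, Real.norm_eq_abs, abs_of_pos hC]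
  calc C * ‖∑ n ∈ Icc 1 N, ((ArithmeticFunction.moebius n : ℤ) : ℂ) *
        (f (fun i => x (i + n)) / C)‖ ≤ C * (3 * (ε / (3 * C)) * N) :=
        mul_le_mul_of_nonneg_left h1 hC.le
    _ = ε * N := by field_simp

end Pool.Agent.Lib.MP_3e612f_nt.PS
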